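import Mathlib

/-! Some elementary estimates. -/

set_option autoImplicit false

namespace Pool.Agent.Q15.UM

open Real

/-- `d ^ ω(b)` is at most `C b ^ ε` -/
theorem omega_bound (d : ℕ) (hd : 1 ≤ d) (ε : ℝ) (hε : 0 < ε) : ∃ C : ℝ, 1 ≤ C ∧
    ∀ b : ℕ, 1 ≤ b → ((d ^ b.primeFactors.card : ℕ) : ℝ) ≤ C * (b : ℝ) ^ ε := by
  classical
  have hd1 : (1 : ℝ) ≤ d := by exact_mod_cast hd
  obtain ⟨P, hP⟩ : ∃ P : ℕ, (d : ℝ) ^ (1 / ε) ≤ P := exists_nat_ge _
  refine ⟨(d : ℝ) ^ (P + 1), one_le_pow₀ hd1, fun b hb => ?_⟩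
  have h1 : ∀ p ∈ b.primeFactors, (d : ℝ) ≤ (if p < P + 1 then (d : ℝ) else 1) * (p : ℝ) ^ ε := by
    intro p hp
    have hp1 : (1 : ℝ) ≤ p := by exact_mod_cast (Nat.prime_of_mem_primeFactors hp).one_le
    split_ifs with h
    · have : 1 ≤ (p : ℝ) ^ ε := one_le_rpow hp1 hε.le
      nlinarith
    · have h2 : (P : ℝ) ≤ p := by
        have : P ≤ p := by omega
        exact_mod_cast this
      rw [one_mul]
      calc (d : ℝ) = ((d : ℝ) ^ (1 / ε)) ^ ε := by
            rw [← rpow_mul (by linarith), one_div_mul_cancel hε.ne', rpow_one]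
        _ ≤ (p : ℝ) ^ ε := rpow_le_rpow (by positivity) (hP.trans h2) hε.le
  push_cast
  calc (d : ℝ) ^ b.primeFactors.card = ∏ _p ∈ b.primeFactors, (d : ℝ) := by
        rw [Finset.prod_const]
    _ ≤ ∏ p ∈ b.primeFactors, ((if p < P + 1 then (d : ℝ) else 1) * (p : ℝ) ^ ε) :=
        Finset.prod_le_prod (fun _ _ => by linarith) h1
    _ = (∏ p ∈ b.primeFactors, (if p < P + 1 then (d : ℝ) else 1)) *
        ∏ p ∈ b.primeFactors, (p : ℝ) ^ ε := Finset.prod_mul_distrib
    _ ≤ (d : ℝ) ^ (P + 1) * (b : ℝ) ^ ε := by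
        apply mul_le_mul
        · rw [Finset.prod_ite, Finset.prod_const_one, mul_one, Finset.prod_const]
          apply pow_le_pow_right₀ hd1
          have h3 : b.primeFactors.filter (fun p => p < P + 1) ⊆ Finset.range (P + 1) := by
            intro p hp
            exact Finset.mem_range.2 (Finset.mem_filter.1 hp).2
          have := Finset.card_le_card h3
          rwa [Finset.card_range] at this
        · rw [finsetProd_rpow _ _ (fun i _ => Nat.cast_nonneg i)]
          apply rpow_le_rpow (Finset.prod_nonneg fun i _ => Nat.cast_nonneg i) _ hε.le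
          have h4 : ∏ p ∈ b.primeFactors, p ≤ b :=
            Nat.le_of_dvd hb (Nat.prod_primeFactors_dvd b)
          have h5 : ((∏ p ∈ b.primeFactors, p : ℕ) : ℝ) ≤ b := Nat.cast_le.2 h4
          rwa [Nat.cast_prod] at h5
        · exact Finset.prod_nonneg fun i _ => rpow_nonneg (Nat.cast_nonneg i) _
        · positivity

lemma sum_sq (n : ℕ) (hn : 2 ≤ n) :
    ∑ g ∈ Finset.Icc 2 n, (1 : ℝ) / (g : ℝ) ^ 2 ≤ 3 / 4 - 1 / n := by
  induction n, hn using Nat.le_induction with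
  | base => norm_num
  | succ n hn ih =>
    rw [Finset.sum_Icc_succ_top (by omega)]
    have hn0 : (0 : ℝ) < n := by
      have : 0 < n := by omega
      exact_mod_cast this
    have h1 : (1 : ℝ) / ((n + 1 : ℕ) : ℝ) ^ 2 ≤ 1 / n - 1 / ((n + 1 : ℕ) : ℝ) := by
      push_cast
      rw [div_sub_div _ _ hn0.ne' (by positivity), div_le_div_iff₀ (by positivity) (by positivity)]
      nlinarith
    linarith

/-- coprime pairs in a square -/
def cop (n : ℕ) : Finset (ℕ × ℕ) :=
  (Finset.Icc 1 n ×ˢ Finset.Icc 1 n).filter fun x => Nat.Coprime x.1 x.2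

lemma cop_le (n : ℕ) : (cop n).card ≤ n ^ 2 := by
  refine (Finset.card_filter_le _ _).trans ?_
  rw [Finset.card_product, Nat.card_Icc]
  simp [sq]

/-- there are at least `n ^ 2 / 4` coprime pairs -/
theorem cop_ge (n : ℕ) (hn : 1 ≤ n) : (n : ℝ) ^ 2 ≤ 4 * (cop n).card := by
  classical
  have h1 : n ^ 2 ≤ ∑ g ∈ Finset.Icc 1 n, (cop (n / g)).card := by
    have hmaps : ∀ x ∈ Finset.Icc 1 n ×ˢ Finset.Icc 1 n,
        Nat.gcd x.1 x.2 ∈ Finset.Icc 1 n := by
      intro x hx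
      rw [Finset.mem_product, Finset.mem_Icc, Finset.mem_Icc] at hx
      rw [Finset.mem_Icc]
      have h2 : Nat.gcd x.1 x.2 ≤ x.1 := Nat.gcd_le_left _ (by omega)
      have h3 : 0 < Nat.gcd x.1 x.2 := Nat.gcd_pos_of_pos_left _ (by omega)
      omega
    have h2 := Finset.card_eq_sum_card_fiberwise hmaps
    rw [Finset.card_product, Nat.card_Icc] at h2
    have h3 : n ^ 2 = (n + 1 - 1) * (n + 1 - 1) := by
      simp [sq]
    rw [h3, h2]
    apply Finset.sum_le_sum
    intro g hg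
    have hg1 := (Finset.mem_Icc.1 hg).1
    have hinj : Set.InjOn (fun x : ℕ × ℕ => (x.1 / g, x.2 / g))
        ((Finset.Icc 1 n ×ˢ Finset.Icc 1 n).filter fun x => Nat.gcd x.1 x.2 = g) := by
      intro x hx y hy hxy
      have hx2 := (Finset.mem_filter.1 (Finset.mem_coe.1 hx)).2
      have hy2 := (Finset.mem_filter.1 (Finset.mem_coe.1 hy)).2
      have e1 := (Prod.mk.inj hxy).1
      have e2 := (Prod.mk.inj hxy).2
      have a1 : g ∣ x.1 := by rw [← hx2]; exact Nat.gcd_dvd_left _ _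
      have a2 : g ∣ x.2 := by rw [← hx2]; exact Nat.gcd_dvd_right _ _
      have a3 : g ∣ y.1 := by rw [← hy2]; exact Nat.gcd_dvd_left _ _
      have a4 : g ∣ y.2 := by rw [← hy2]; exact Nat.gcd_dvd_right _ _
      apply Prod.ext
      · rw [← Nat.div_mul_cancel a1, ← Nat.div_mul_cancel a3, e1]
      · rw [← Nat.div_mul_cancel a2, ← Nat.div_mul_cancel a4, e2]
    rw [← Finset.card_image_of_injOn hinj]
    apply Finset.card_le_card
    intro y hy
    obtain ⟨x, hx, rfl⟩ := Finset.mem_image.1 hy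
    obtain ⟨hx1, hx2⟩ := Finset.mem_filter.1 hx
    rw [Finset.mem_product, Finset.mem_Icc, Finset.mem_Icc] at hx1
    have a1 : g ∣ x.1 := by rw [← hx2]; exact Nat.gcd_dvd_left _ _
    have a2 : g ∣ x.2 := by rw [← hx2]; exact Nat.gcd_dvd_right _ _
    unfold cop
    rw [Finset.mem_filter, Finset.mem_product, Finset.mem_Icc, Finset.mem_Icc]
    refine ⟨⟨⟨?_, Nat.div_le_div_right hx1.1.2⟩, ⟨?_, Nat.div_le_div_right hx1.2.2⟩⟩, ?_⟩
    · exact Nat.div_pos (Nat.le_of_dvd (by omega) a1) hg1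
    · exact Nat.div_pos (Nat.le_of_dvd (by omega) a2) hg1
    · have := Nat.coprime_div_gcd_div_gcd (m := x.1) (n := x.2) (by rw [hx2]; exact hg1)
      rwa [hx2] at this
  have h2 : ((n ^ 2 : ℕ) : ℝ) ≤ ((∑ g ∈ Finset.Icc 1 n, (cop (n / g)).card : ℕ) : ℝ) := by
    exact_mod_cast h1
  rcases Nat.lt_or_ge n 2 with hn2 | hn2
  · have : n = 1 := by omega
    subst this
    have h3 : 1 ≤ (cop 1).card := by
      rw [Nat.one_le_iff_ne_zero, Finset.card_ne_zero]
      exact ⟨(1, 1), by simp [cop]⟩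
    have h4 : (1 : ℝ) ≤ (cop 1).card := by exact_mod_cast h3
    push_cast
    linarith
  · have h3 : Finset.Icc 1 n = insert 1 (Finset.Icc 2 n) := by
      ext x
      rw [Finset.mem_insert, Finset.mem_Icc, Finset.mem_Icc]
      omega
    rw [h3, Finset.sum_insert (by simp), Nat.div_one] at h2
    push_cast at h2
    have h4 : ∑ g ∈ Finset.Icc 2 n, ((cop (n / g)).card : ℝ) ≤
        (n : ℝ) ^ 2 * (3 / 4 - 1 / n) := by
      calc ∑ g ∈ Finset.Icc 2 n, ((cop (n / g)).card : ℝ) ≤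
          ∑ g ∈ Finset.Icc 2 n, (n : ℝ) ^ 2 * (1 / (g : ℝ) ^ 2) := by
            apply Finset.sum_le_sum
            intro g hg
            have hg1 := (Finset.mem_Icc.1 hg).1
            have hg0 : (0 : ℝ) < g := by
              have : 0 < g := by omega
              exact_mod_cast this
            have h5 : ((cop (n / g)).card : ℝ) ≤ ((n / g : ℕ) : ℝ) ^ 2 := by
              exact_mod_cast cop_le (n / g)
            have h6 : ((n / g : ℕ) : ℝ) ≤ (n : ℝ) / g := Nat.cast_div_le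
            calc ((cop (n / g)).card : ℝ) ≤ ((n / g : ℕ) : ℝ) ^ 2 := h5
              _ ≤ ((n : ℝ) / g) ^ 2 := by gcongr
              _ = (n : ℝ) ^ 2 * (1 / (g : ℝ) ^ 2) := by rw [div_pow]; ring
        _ = (n : ℝ) ^ 2 * ∑ g ∈ Finset.Icc 2 n, (1 / (g : ℝ) ^ 2) := by rw [Finset.mul_sum]
        _ ≤ _ := mul_le_mul_of_nonneg_left (sum_sq n hn2) (by positivity)
    have hn0 : (0 : ℝ) < n := by
      have : 0 < n := by omega
      exact_mod_cast this
    have h5 : (n : ℝ) ^ 2 * (3 / 4 - 1 / n) ≤ 3 / 4 * (n : ℝ) ^ 2 := by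
      have : 0 ≤ (n : ℝ) ^ 2 * (1 / n) := by positivity
      nlinarith
    linarith

lemma sum_inv (B : ℕ) : ∑ b ∈ Finset.Icc 1 B, (1 : ℝ) / b ≤ 1 + log B := by
  have h := harmonic_le_one_add_log B
  rw [harmonic_eq_sum_Icc] at h
  push_cast at h
  simpa using h

end Pool.Agent.Q15.UM
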