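import Mathlib

/-! Rational preperiodic points of `z ^ d + c`: denominators, congruences and absolute values. -/

set_option autoImplicit false

namespace Pool.Agent.Q15.UM

/-- the map -/
def fc (d : ℕ) (c : ℚ) (w : ℚ) : ℚ := w ^ d + c

/-- the rational preperiodic points -/
def Pre (d : ℕ) (c : ℚ) : Set ℚ := {z | (Set.range fun k : ℕ => (fc d c)^[k] z).Finite}

variable {d : ℕ} {c : ℚ}

lemma pre_step {z : ℚ} (hz : z ∈ Pre d c) : fc d c z ∈ Pre d c := by
  refine Set.Finite.subset hz ?_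
  rintro _ ⟨k, rfl⟩
  exact ⟨k + 1, Function.iterate_succ_apply _ _ _⟩

lemma pre_of_step {z : ℚ} (hz : fc d c z ∈ Pre d c) : z ∈ Pre d c := by
  refine Set.Finite.subset (Set.Finite.insert z hz) ?_
  rintro _ ⟨k, rfl⟩
  cases k with
  | zero => exact Set.mem_insert _ _
  | succ k => exact Set.mem_insert_of_mem _ ⟨k, (Function.iterate_succ_apply _ _ _).symm⟩

lemma fc_neg (hd : Even d) (z : ℚ) : fc d c (-z) = fc d c z := by
  unfold fc
  rw [hd.neg_pow]

lemma pre_neg (hd : Even d) {z : ℚ} (hz : z ∈ Pre d c) : -z ∈ Pre d c := by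
  apply pre_of_step
  rw [fc_neg hd]
  exact pre_step hz

/-- preperiodic points do not escape -/
lemma not_escape {Q : ℚ → Prop} {N : ℚ → ℝ}
    (h : ∀ y, Q y → Q (fc d c y) ∧ N y < N (fc d c y)) {z : ℚ} (hz : z ∈ Pre d c) : ¬ Q z := by
  intro hQ
  have h1 : ∀ k : ℕ, Q ((fc d c)^[k] z) := by
    intro k
    induction k with
    | zero => exact hQ
    | succ k ih =>
      rw [Function.iterate_succ_apply']
      exact (h _ ih).1
  have h2 : StrictMono fun k : ℕ => N ((fc d c)^[k] z) := by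
    apply strictMono_nat_of_lt_succ
    intro k
    rw [Function.iterate_succ_apply']
    exact (h _ (h1 k)).2
  have h3 : Function.Injective fun k : ℕ => (fc d c)^[k] z := by
    intro a b hab
    exact h2.injective (congrArg N hab)
  exact Set.infinite_range_of_injective h3 hz

section padic

variable {p : ℕ} [hp : Fact p.Prime]

lemma norm_pow (z : ℚ) (n : ℕ) : padicNorm p (z ^ n) = padicNorm p z ^ n := by
  induction n with
  | zero => simp
  | succ n ih => rw [pow_succ, padicNorm.mul, ih, pow_succ]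

lemma norm_max (hd : 2 ≤ d) {z : ℚ} (hz : z ∈ Pre d c) :
    (max 1 (padicNorm p z)) ^ d = max 1 (padicNorm p c) := by
  have hd0 : d ≠ 0 := by omega
  -- the escape region
  have hQ : ∀ z, z ∈ Pre d c → ¬ (1 < padicNorm p z ∧ padicNorm p c < padicNorm p z ^ d) := by
    intro z hz
    refine not_escape (Q := fun z => 1 < padicNorm p z ∧ padicNorm p c < padicNorm p z ^ d)
      (N := fun y => (padicNorm p y : ℝ)) ?_ hz
    rintro y ⟨h1, h2⟩
    have h3 : padicNorm p (fc d c y) = padicNorm p y ^ d := by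
      unfold fc
      have h4 : padicNorm p (y ^ d) = padicNorm p y ^ d := norm_pow y d
      rw [padicNorm.add_eq_max_of_ne (by rw [h4]; exact h2.ne'), h4]
      exact max_eq_left h2.le
    have h4 : padicNorm p y < padicNorm p y ^ d := by
      calc padicNorm p y = padicNorm p y ^ 1 := (pow_one _).symm
        _ < padicNorm p y ^ d := pow_lt_pow_right₀ h1 (by omega)
    refine ⟨⟨by rw [h3]; linarith, ?_⟩, ?_⟩
    · rw [h3]
      refine h2.trans ?_
      calc padicNorm p y ^ d = (padicNorm p y ^ d) ^ 1 := (pow_one _).symm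
        _ < (padicNorm p y ^ d) ^ d := pow_lt_pow_right₀ (by linarith) (by omega)
    · rw [h3]
      exact_mod_cast h4
  have h1 := hQ z hz
  rcases le_or_gt (padicNorm p c) 1 with hc | hc
  · rw [max_eq_left hc]
    have h2 : padicNorm p z ≤ 1 := by
      by_contra h
      push Not at h
      exact h1 ⟨h, hc.trans_lt (one_lt_pow₀ h hd0)⟩
    rw [max_eq_left h2, one_pow]
  · rw [max_eq_right hc.le]
    have h2 : ¬ padicNorm p z ^ d < padicNorm p c := by
      intro h
      apply hQ (fc d c z) (pre_step hz)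
      have h3 : padicNorm p (fc d c z) = padicNorm p c := by
        unfold fc
        have h4 : padicNorm p (z ^ d) = padicNorm p z ^ d := by
          exact norm_pow z d
        rw [padicNorm.add_eq_max_of_ne (by rw [h4]; exact h.ne), h4]
        exact max_eq_right h.le
      rw [h3]
      refine ⟨hc, ?_⟩
      calc padicNorm p c = padicNorm p c ^ 1 := (pow_one _).symm
        _ < padicNorm p c ^ d := pow_lt_pow_right₀ hc (by omega)
    push Not at h2
    have h3 : 1 < padicNorm p z := by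
      by_contra h
      push Not at h
      have h4 : padicNorm p z ^ d ≤ 1 := pow_le_one₀ (padicNorm.nonneg _) h
      linarith
    rw [max_eq_right h3.le]
    refine le_antisymm ?_ h2
    by_contra h
    push Not at h
    exact h1 ⟨h3, h⟩

lemma den_norm (q : ℚ) : max 1 (padicNorm p q) = (p : ℚ) ^ (padicValNat p q.den) := by
  have hp1 : (1 : ℚ) < p := by exact_mod_cast hp.out.one_lt
  by_cases hq : q = 0
  · subst hq
    simp
  · rw [padicNorm.eq_zpow_of_nonzero hq]
    have hv : padicValRat p q = (padicValInt p q.num : ℤ) - padicValNat p q.den := rfl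
    by_cases hdv : p ∣ q.den
    · have h1 : ¬ (p : ℤ) ∣ q.num := by
        intro h
        have h2 : p ∣ q.num.natAbs := Int.natCast_dvd.1 h
        have h3 := Nat.dvd_gcd h2 hdv
        rw [q.reduced] at h3
        exact hp.out.one_lt.ne' (Nat.dvd_one.1 h3)
      rw [hv, padicValInt.eq_zero_of_not_dvd h1]
      simp only [Nat.cast_zero, zero_sub, neg_neg, zpow_natCast]
      exact max_eq_right (one_le_pow₀ hp1.le)
    · rw [padicValNat.eq_zero_of_not_dvd hdv, hv, padicValNat.eq_zero_of_not_dvd hdv, pow_zero]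
      apply max_eq_left
      simp only [Nat.cast_zero, sub_zero]
      rw [zpow_neg, zpow_natCast]
      exact inv_le_one_of_one_le₀ (one_le_pow₀ hp1.le)

end padic

/-- the denominator of `c` is the `d`-th power of the denominator of a preperiodic point -/
lemma den_pow (hd : 2 ≤ d) {z : ℚ} (hz : z ∈ Pre d c) : c.den = z.den ^ d := by
  apply Nat.eq_of_factorization_eq c.den_nz (pow_ne_zero _ z.den_nz)
  intro p
  by_cases hp : p.Prime
  · have hf : Fact p.Prime := ⟨hp⟩
    have h1 := norm_max (p := p) hd hz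
    rw [den_norm, den_norm, ← pow_mul] at h1
    have h2 : padicValNat p z.den * d = padicValNat p c.den :=
      pow_right_injective₀ (by exact_mod_cast hp.pos) (by exact_mod_cast hp.one_lt.ne') h1
    rw [Nat.factorization_pow, Finsupp.smul_apply, smul_eq_mul, Nat.factorization_def _ hp,
      Nat.factorization_def _ hp, ← h2, mul_comm]
  · rw [Nat.factorization_eq_zero_of_not_prime _ hp, Nat.factorization_eq_zero_of_not_prime _ hp]

lemma den_eq (hd : 2 ≤ d) {x y : ℚ} (hx : x ∈ Pre d c) (hy : y ∈ Pre d c) : x.den = y.den := by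
  have h1 := den_pow hd hx
  rw [den_pow hd hy] at h1
  exact (Nat.pow_left_injective (by omega) h1).symm

/-- the congruence -/
lemma cong (hd : 2 ≤ d) {x y : ℚ} (hx : x ∈ Pre d c) (hy : y ∈ Pre d c) :
    ((x.den : ℤ) ^ (d - 1)) ∣ x.num ^ d - y.num ^ d := by
  have e1 := den_eq hd (pre_step hx) hx
  have e2 := den_eq hd (pre_step hy) hx
  have e3 := den_eq hd hy hx
  have hb : (x.den : ℚ) ≠ 0 := by exact_mod_cast x.den_nz
  have h1 : fc d c x - fc d c y = x ^ d - y ^ d := by unfold fc; ring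
  rw [← Rat.num_div_den (fc d c x), ← Rat.num_div_den (fc d c y), e1, e2] at h1
  have h2 : x ^ d - y ^ d = ((x.num : ℚ) ^ d - (y.num : ℚ) ^ d) / (x.den : ℚ) ^ d := by
    conv_lhs => rw [← Rat.num_div_den x, ← Rat.num_div_den y, e3]
    rw [div_pow, div_pow]
    ring
  rw [h2, ← sub_div, div_eq_div_iff hb (pow_ne_zero _ hb)] at h1
  have h3 : (x.den : ℚ) ^ d = (x.den : ℚ) ^ (d - 1) * x.den := by
    rw [← pow_succ]
    congr 1
    omega
  rw [h3, ← mul_assoc] at h1
  have h4 := mul_right_cancel₀ hb h1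
  refine ⟨(fc d c x).num - (fc d c y).num, ?_⟩
  have h5 : ((x.num ^ d - y.num ^ d : ℤ) : ℚ) =
      (((x.den : ℤ) ^ (d - 1) * ((fc d c x).num - (fc d c y).num) : ℤ) : ℚ) := by
    push_cast
    linarith
  exact_mod_cast h5

section real

lemma abs_le_or (hd : 4 ≤ d) {z : ℚ} (hz : z ∈ Pre d c) : |z| < 2 ∨ |z| ^ d ≤ 2 * |c| := by
  by_contra hcon
  push Not at hcon
  refine not_escape (Q := fun y => 2 ≤ |y| ∧ 2 * |c| < |y| ^ d) (N := fun y => ((|y| : ℚ) : ℝ))
    ?_ hz hcon
  rintro y ⟨h1, h2⟩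
  have h3 : |y| ^ d - |c| ≤ |fc d c y| := by
    unfold fc
    have := abs_sub_abs_le_abs_sub (y ^ d) (-c)
    rw [sub_neg_eq_add, abs_neg, abs_pow] at this
    exact this
  have h4 : 2 * |y| < |y| ^ d - |c| := by
    have h5 : |y| ^ d = |y| * |y| ^ (d - 1) := by
      rw [← pow_succ']
      congr 1
      omega
    have h6 : (2 : ℚ) ^ 3 ≤ |y| ^ (d - 1) := by
      calc (2 : ℚ) ^ 3 ≤ |y| ^ 3 := by gcongr
        _ ≤ |y| ^ (d - 1) := pow_le_pow_right₀ (by linarith) (by omega)
    have h7 : |y| * 8 ≤ |y| ^ d := by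
      rw [h5]
      have : (8 : ℚ) ≤ |y| ^ (d - 1) := by linarith
      nlinarith
    linarith
  have h5 : |y| < |fc d c y| := by linarith [abs_nonneg y]
  refine ⟨⟨by linarith, ?_⟩, by exact_mod_cast h5⟩
  calc 2 * |c| < |y| ^ d := h2
    _ ≤ |fc d c y| ^ d := by gcongr

/-- small parameters -/
lemma small_abs (hd : 4 ≤ d) (hc : |c| < 4 ^ d) {z : ℚ} (hz : z ∈ Pre d c) : |z| ≤ 5 := by
  rcases abs_le_or hd hz with h | h
  · linarith
  · by_contra h5
    push Not at h5
    have h1 : (5 : ℚ) ^ d < |z| ^ d := by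
      have : d ≠ 0 := by omega
      gcongr
    have h2 : 2 * (4 : ℚ) ^ d ≤ 5 ^ d := by
      have h3 : (2 : ℚ) ≤ (5 / 4) ^ d := by
        calc (2 : ℚ) ≤ (5 / 4) ^ 4 := by norm_num
          _ ≤ (5 / 4) ^ d := pow_le_pow_right₀ (by norm_num) hd
      have h4 : (5 : ℚ) ^ d = (5 / 4) ^ d * 4 ^ d := by
        rw [← mul_pow]
        norm_num
      rw [h4]
      have : (0 : ℚ) < 4 ^ d := by positivity
      nlinarith
    linarith

/-- large parameters -/
lemma large_abs (hd : 4 ≤ d) (hc : 4 ^ d ≤ |c|) {z : ℚ} (hz : z ∈ Pre d c) :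
    |z| ^ d ≤ 2 * |c| ∧ 3 * |c| ≤ 4 * |z| ^ d := by
  have h4d : (256 : ℚ) ≤ 4 ^ d := by
    calc (256 : ℚ) = 4 ^ 4 := by norm_num
      _ ≤ 4 ^ d := pow_le_pow_right₀ (by norm_num) hd
  have h1 : ∀ z, z ∈ Pre d c → |z| ^ d ≤ 2 * |c| := by
    intro z hz
    rcases abs_le_or hd hz with h | h
    · have h2 : |z| ^ d ≤ 2 ^ d := by gcongr
      have h3 : (2 : ℚ) ^ d ≤ 4 ^ d := by
        gcongr
        norm_num
      linarith
    · exact h
  refine ⟨h1 z hz, ?_⟩
  have h2 := h1 _ (pre_step hz)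
  have h3 : |fc d c z| ≤ |c| / 4 := by
    by_contra h
    push Not at h
    have h5 : (|c| / 4) ^ d ≤ |fc d c z| ^ d := by gcongr
    have h6 : (|c| / 4) ^ 2 ≤ (|c| / 4) ^ d := pow_le_pow_right₀ (by linarith) (by omega)
    nlinarith
  have h4 : |c| - |z| ^ d ≤ |fc d c z| := by
    unfold fc
    have := abs_sub_abs_le_abs_sub c (-(z ^ d))
    rw [sub_neg_eq_add, abs_neg, abs_pow, add_comm c] at this
    exact this
  linarith

lemma sub_mul_pow_le {x y : ℚ} (hx : 0 ≤ x) (hy : 0 ≤ y) (hd : 1 ≤ d) :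
    |x - y| * (max x y) ^ (d - 1) ≤ |x ^ d - y ^ d| := by
  wlog h : y ≤ x generalizing x y
  · have h1 := this hy hx (le_of_not_ge h)
    rwa [abs_sub_comm y x, max_comm, abs_sub_comm (y ^ d)] at h1
  · rw [max_eq_left h, abs_of_nonneg (sub_nonneg.2 h),
      abs_of_nonneg (sub_nonneg.2 (pow_le_pow_left₀ hy h d))]
    have h1 : x ^ d = x * x ^ (d - 1) := by
      rw [← pow_succ']
      congr 1
      omega
    have h2 : y ^ d = y * y ^ (d - 1) := by
      rw [← pow_succ']
      congr 1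
      omega
    have h3 : y ^ (d - 1) ≤ x ^ (d - 1) := pow_le_pow_left₀ hy h _
    rw [h1, h2, sub_mul]
    have := mul_le_mul_of_nonneg_left h3 hy
    linarith

/-- two preperiodic points for a large parameter -/
lemma large_pair (hd : 4 ≤ d) (hev : Even d) (hc : 4 ^ d ≤ |c|) {x y : ℚ} (hx : x ∈ Pre d c)
    (hy : y ∈ Pre d c) : 3 ≤ max |x| |y| ∧ |(|x| - |y|)| * (max |x| |y|) ^ (d - 2) ≤ 3 := by
  obtain ⟨x1, x2⟩ := large_abs hd hc hx
  obtain ⟨y1, y2⟩ := large_abs hd hc hy
  obtain ⟨fx1, -⟩ := large_abs hd hc (pre_step hx)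
  obtain ⟨fy1, -⟩ := large_abs hd hc (pre_step hy)
  set U := max |x| |y| with hU
  have hUx : |x| ≤ U := le_max_left _ _
  have hU0 : 0 ≤ U := (abs_nonneg x).trans hUx
  have hxU : |x| ^ d ≤ U ^ d := by gcongr
  have h3 : 3 ≤ U := by
    by_contra h
    push Not at h
    have h1 : U ^ d ≤ 3 ^ d := by gcongr
    have h2 : 4 * (3 : ℚ) ^ d < 3 * 4 ^ d := by
      have h4 : (3 : ℚ) ≤ (4 / 3) ^ d := by
        calc (3 : ℚ) ≤ (4 / 3) ^ 4 := by norm_num
          _ ≤ (4 / 3) ^ d := pow_le_pow_right₀ (by norm_num) hd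
      have h5 : (4 : ℚ) ^ d = (4 / 3) ^ d * 3 ^ d := by
        rw [← mul_pow]
        norm_num
      rw [h5]
      have : (0 : ℚ) < 3 ^ d := by positivity
      nlinarith
    linarith
  have hf : ∀ t : ℚ, 0 ≤ t → t ^ d ≤ 2 * |c| → t ≤ 3 / 2 * U := by
    intro t ht htc
    by_contra h
    push Not at h
    have h1 : (3 / 2 * U) ^ d ≤ t ^ d := by gcongr
    rw [mul_pow] at h1
    have h2 : (5 : ℚ) ≤ (3 / 2) ^ d := by
      calc (5 : ℚ) ≤ (3 / 2) ^ 4 := by norm_num
        _ ≤ (3 / 2) ^ d := pow_le_pow_right₀ (by norm_num) hd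
    have h5 : 0 < U ^ d := by positivity
    nlinarith
  have h4 : |(|x| ^ d - |y| ^ d)| ≤ 3 * U := by
    have h5 : |x| ^ d - |y| ^ d = fc d c x - fc d c y := by
      unfold fc
      rw [hev.pow_abs, hev.pow_abs]
      ring
    rw [h5]
    have h6 := abs_sub (fc d c x) (fc d c y)
    have h7 := hf _ (abs_nonneg (fc d c x)) fx1
    have h8 := hf _ (abs_nonneg (fc d c y)) fy1
    linarith
  have h5 := (sub_mul_pow_le (d := d) (abs_nonneg x) (abs_nonneg y) (by omega)).trans h4
  refine ⟨h3, ?_⟩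
  have h6 : U ^ (d - 1) = U ^ (d - 2) * U := by
    rw [← pow_succ]
    congr 1
    omega
  rw [← hU, h6, ← mul_assoc] at h5
  exact le_of_mul_le_mul_right h5 (by linarith)

end real

end Pool.Agent.Q15.UM
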