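import Mathlib

/-! Counting pairs `(u, w)` with `u ^ d ≡ w ^ d` modulo `b ^ (d - 1)`. -/

set_option autoImplicit false

namespace Pool.Agent.Q15.UM

lemma dvd_of_pow {d m : ℕ} (hd : Even d) (hd0 : d ≠ 0) {A B : ℕ} (hm0 : m ≠ 0)
    (h : (m : ℤ) ∣ (A : ℤ) ^ d - (B : ℤ) ^ d)
    (hm : ∀ p : ℕ, p.Prime → p ∣ m → (p ≠ 2 → (p : ℤ) ∣ (A : ℤ) - B) ∧
      (p = 2 → (4 : ℤ) ∣ (A : ℤ) - B) ∧ ¬ p ∣ A ∧ ¬ p ∣ B) :
    (m : ℤ) ∣ d * ((A : ℤ) - B) := by
  wlog hBA : B < A generalizing A B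
  · rcases Nat.lt_or_ge A B with h1 | h1
    · have h2 := this (A := B) (B := A) (by
        rw [← neg_sub]
        exact (dvd_neg.2 h)) (by
        intro p hp hpm
        obtain ⟨g1, g2, g3, g4⟩ := hm p hp hpm
        refine ⟨fun h => ?_, fun h => ?_, g4, g3⟩
        · rw [← neg_sub]
          exact dvd_neg.2 (g1 h)
        · rw [← neg_sub]
          exact dvd_neg.2 (g2 h)) h1
      have h3 : (d : ℤ) * ((A : ℤ) - B) = -(d * ((B : ℤ) - A)) := by ring
      rw [h3]
      exact dvd_neg.2 h2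
    · have h2 : A = B := le_antisymm (not_lt.1 hBA) h1
      rw [h2, sub_self, mul_zero]
      exact dvd_zero _
  have hpow : B ^ d < A ^ d := Nat.pow_lt_pow_left hBA hd0
  have h1 : m ∣ A ^ d - B ^ d := by
    have : ((A ^ d - B ^ d : ℕ) : ℤ) = (A : ℤ) ^ d - (B : ℤ) ^ d := by
      push_cast [Nat.cast_sub hpow.le]
      ring
    rw [← this] at h
    exact_mod_cast h
  have h2 : m ∣ d * (A - B) := by
    have hn0 : d * (A - B) ≠ 0 := Nat.mul_ne_zero hd0 (Nat.sub_ne_zero_of_lt hBA)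
    rw [← Nat.factorization_le_iff_dvd hm0 hn0]
    intro p
    by_cases hp : p.Prime
    · by_cases hpm : p ∣ m
      · have hf : Fact p.Prime := ⟨hp⟩
        obtain ⟨g1, g2, g3, g4⟩ := hm p hp hpm
        have h3 : m.factorization p ≤ (A ^ d - B ^ d).factorization p :=
          (Nat.factorization_le_iff_dvd hm0 (Nat.sub_ne_zero_of_lt hpow)).2 h1 p
        refine h3.trans (le_of_eq ?_)
        rw [Nat.factorization_def _ hp, Nat.factorization_def _ hp,
          padicValNat.mul hd0 (Nat.sub_ne_zero_of_lt hBA)]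
        by_cases hp2 : p = 2
        · subst hp2
          have h4 : (4 : ℤ) ∣ (A : ℤ) - B := g2 rfl
          have h5 : 4 ∣ A - B := by
            have : ((A - B : ℕ) : ℤ) = (A : ℤ) - B := by
              push_cast [Nat.cast_sub hBA.le]
              ring
            rw [← this] at h4
            exact_mod_cast h4
          have h6 := padicValNat.pow_two_sub_pow hBA (by omega) g3 hd0 hd
          have h7 : padicValNat 2 (A + B) = 1 := by
            obtain ⟨k, hk⟩ : ∃ k, A + B = 2 * k := ⟨(A + B) / 2, by omega⟩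
            have hk2 : ¬ 2 ∣ k := by omega
            have hk0 : k ≠ 0 := by omega
            rw [hk, padicValNat.mul (by norm_num) hk0, padicValNat.self (by norm_num),
              padicValNat.eq_zero_of_not_dvd hk2]
          omega
        · have h4 : (p : ℤ) ∣ (A : ℤ) - B := g1 hp2
          have h5 : p ∣ A - B := by
            have : ((A - B : ℕ) : ℤ) = (A : ℤ) - B := by
              push_cast [Nat.cast_sub hBA.le]
              ring
            rw [← this] at h4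
            exact_mod_cast h4
          rw [padicValNat.pow_sub_pow (hp.odd_of_ne_two hp2) hBA h5 g3 hd0]
          ring
      · rw [Nat.factorization_eq_zero_of_not_dvd hpm]
        exact Nat.zero_le _
    · rw [Nat.factorization_eq_zero_of_not_prime _ hp]
      exact Nat.zero_le _
  have h3 : ((d * (A - B) : ℕ) : ℤ) = d * ((A : ℤ) - B) := by
    push_cast [Nat.cast_sub hBA.le]
    ring
  rw [← h3]
  exact_mod_cast h2

/-- the modulus at a prime -/
def qq (p : ℕ) : ℕ := if p = 2 then 4 else p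

lemma qq_dvd {p : ℕ} (b d : ℕ) (hd : 3 ≤ d) (hpb : p ∣ b) : qq p ∣ b ^ (d - 1) := by
  unfold qq
  have h1 : p ^ (d - 1) ∣ b ^ (d - 1) := pow_dvd_pow_of_dvd hpb _
  split_ifs with h
  · subst h
    have h2 : 2 ^ 2 ∣ 2 ^ (d - 1) := pow_dvd_pow _ (by omega)
    exact (by simpa using h2 : 4 ∣ 2 ^ (d - 1)).trans h1
  · exact (dvd_pow_self p (by omega)).trans h1

lemma qq_cop {p u b : ℕ} (hpb : p ∣ b) (hu : Nat.Coprime u b) : Nat.Coprime u (qq p) := by
  have h1 : Nat.Coprime u p := Nat.Coprime.coprime_dvd_right hpb hu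
  unfold qq
  split_ifs with h
  · subst h
    have : Nat.Coprime u (2 ^ 2) := Nat.Coprime.pow_right 2 h1
    simpa using this
  · exact h1

/-- the pairs -/
structure PairOK (d b u w : ℕ) : Prop where
  ne : u ≠ w
  cu : Nat.Coprime u b
  cw : Nat.Coprime w b
  dv : ((b : ℤ) ^ (d - 1)) ∣ (u : ℤ) ^ d - (w : ℤ) ^ d

/-- the class of a pair -/
noncomputable def key (b : ℕ) (x : ℕ × ℕ) : ∀ p ∈ b.primeFactors, ℕ := fun p _ =>
  ((x.2 : ZMod (qq p)) * (x.1 : ZMod (qq p))⁻¹).val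

lemma key_eq {b : ℕ} {x y : ℕ × ℕ} (hx : Nat.Coprime x.1 b) (hy : Nat.Coprime y.1 b)
    (h : key b x = key b y) {p : ℕ} (hp : p ∈ b.primeFactors) :
    ((qq p : ℕ) : ℤ) ∣ ((x.1 * y.2 : ℕ) : ℤ) - ((y.1 * x.2 : ℕ) : ℤ) := by
  have hpp := Nat.prime_of_mem_primeFactors hp
  have hpb := Nat.dvd_of_mem_primeFactors hp
  have hq : NeZero (qq p) := by
    constructor
    unfold qq
    split_ifs
    · norm_num
    · exact hpp.ne_zero
  have h1 := congrFun (congrFun h p) hp
  unfold key at h1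
  have h2 := ZMod.val_injective _ h1
  have h3 := ZMod.coe_mul_inv_eq_one x.1 (qq_cop hpb hx)
  have h4 := ZMod.coe_mul_inv_eq_one y.1 (qq_cop hpb hy)
  have h5 : ((x.1 * y.2 : ℕ) : ZMod (qq p)) = ((y.1 * x.2 : ℕ) : ZMod (qq p)) := by
    push_cast
    calc (x.1 : ZMod (qq p)) * y.2 = (x.1 : ZMod (qq p)) * (y.2 * ((y.1 : ZMod (qq p)) *
          (y.1 : ZMod (qq p))⁻¹)) := by rw [h4, mul_one]
      _ = (x.1 : ZMod (qq p)) * y.1 * (y.2 * (y.1 : ZMod (qq p))⁻¹) := by ring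
      _ = (x.1 : ZMod (qq p)) * y.1 * (x.2 * (x.1 : ZMod (qq p))⁻¹) := by rw [h2]
      _ = (y.1 : ZMod (qq p)) * (x.2 * ((x.1 : ZMod (qq p)) * (x.1 : ZMod (qq p))⁻¹)) := by ring
      _ = (y.1 : ZMod (qq p)) * x.2 := by rw [h3, mul_one]
  rw [← sub_eq_zero] at h5
  have h6 : (((x.1 * y.2 : ℕ) : ℤ) - ((y.1 * x.2 : ℕ) : ℤ) : ZMod (qq p)) = 0 := by
    push_cast
    push_cast at h5
    exact h5
  rw [← ZMod.intCast_zmod_eq_zero_iff_dvd]
  push_cast
  push_cast at h6
  exact h6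

/-- the determinant of two pairs in a class -/
lemma dvd_det {d b : ℕ} (hd : Even d) (hd4 : 4 ≤ d) (hb : b ≠ 0) {x y : ℕ × ℕ}
    (hx : PairOK d b x.1 x.2) (hy : PairOK d b y.1 y.2) (h : key b x = key b y) :
    ((b ^ (d - 1) : ℕ) : ℤ) ∣ d * (((x.1 * y.2 : ℕ) : ℤ) - ((y.1 * x.2 : ℕ) : ℤ)) := by
  apply dvd_of_pow hd (by omega) (pow_ne_zero _ hb)
  · have e : ((x.1 * y.2 : ℕ) : ℤ) ^ d - ((y.1 * x.2 : ℕ) : ℤ) ^ d =
        (x.1 : ℤ) ^ d * -((y.1 : ℤ) ^ d - (y.2 : ℤ) ^ d) +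
          (y.1 : ℤ) ^ d * ((x.1 : ℤ) ^ d - (x.2 : ℤ) ^ d) := by
      push_cast
      ring
    rw [e]
    push_cast
    exact dvd_add ((dvd_neg.2 hy.dv).mul_left _) (hx.dv.mul_left _)
  · intro p hp hpm
    have hpb : p ∣ b := hp.dvd_of_dvd_pow hpm
    have hpf : p ∈ b.primeFactors := Nat.mem_primeFactors.2 ⟨hp, hpb, hb⟩
    have h1 := key_eq hx.cu hy.cu h hpf
    have hnd : ∀ u : ℕ, Nat.Coprime u b → ¬ p ∣ u := by
      intro u hu hpu
      have := Nat.dvd_gcd hpu hpb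
      rw [hu] at this
      exact hp.one_lt.ne' (Nat.dvd_one.1 this)
    refine ⟨fun h2 => ?_, fun h2 => ?_, ?_, ?_⟩
    · rwa [qq, if_neg h2] at h1
    · rw [qq, if_pos h2] at h1
      exact_mod_cast h1
    · intro h2
      rcases (hp.dvd_mul).1 h2 with h3 | h3
      · exact hnd _ hx.cu h3
      · exact hnd _ hy.cw h3
    · intro h2
      rcases (hp.dvd_mul).1 h2 with h3 | h3
      · exact hnd _ hy.cu h3
      · exact hnd _ hx.cw h3

/-- the possible classes -/
noncomputable def keys (d b : ℕ) : Finset (∀ p ∈ b.primeFactors, ℕ) :=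
  Finset.pi b.primeFactors fun p => (Finset.range (qq p)).filter fun x : ℕ =>
    (x : ZMod (qq p)) ^ d = 1

lemma key_mem {d b : ℕ} (hd : 3 ≤ d) {x : ℕ × ℕ} (hx : PairOK d b x.1 x.2) :
    key b x ∈ keys d b := by
  unfold keys
  rw [Finset.mem_pi]
  intro p hp
  have hpp := Nat.prime_of_mem_primeFactors hp
  have hpb := Nat.dvd_of_mem_primeFactors hp
  have hq : NeZero (qq p) := by
    constructor
    unfold qq
    split_ifs
    · norm_num
    · exact hpp.ne_zero
  rw [Finset.mem_filter, Finset.mem_range]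
  refine ⟨ZMod.val_lt _, ?_⟩
  show ((((x.2 : ZMod (qq p)) * (x.1 : ZMod (qq p))⁻¹).val : ℕ) : ZMod (qq p)) ^ d = 1
  rw [ZMod.natCast_zmod_val, mul_pow]
  have h3 := ZMod.coe_mul_inv_eq_one x.1 (qq_cop hpb hx.cu)
  have h4 : ((x.1 : ZMod (qq p))) ^ d = (x.2 : ZMod (qq p)) ^ d := by
    have h5 : ((qq p : ℕ) : ℤ) ∣ (x.1 : ℤ) ^ d - (x.2 : ℤ) ^ d := by
      refine dvd_trans ?_ hx.dv
      exact_mod_cast qq_dvd b d hd hpb
    rw [← ZMod.intCast_zmod_eq_zero_iff_dvd] at h5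
    push_cast at h5
    exact sub_eq_zero.1 h5
  rw [← h4, ← mul_pow, h3, one_pow]

lemma card_keys {d b : ℕ} (hd : 4 ≤ d) : (keys d b).card ≤ d ^ b.primeFactors.card := by
  unfold keys
  rw [Finset.card_pi]
  apply Finset.prod_le_pow_card
  intro p hp
  have hpp := Nat.prime_of_mem_primeFactors hp
  by_cases h2 : p = 2
  · calc _ ≤ (Finset.range (qq p)).card := Finset.card_filter_le _ _
      _ = 4 := by rw [Finset.card_range, qq, if_pos h2]
      _ ≤ d := hd
  · have hqp : qq p = p := by rw [qq, if_neg h2]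
    rw [hqp]
    have hf : Fact p.Prime := ⟨hpp⟩
    have h3 : ((Finset.range p).filter fun x : ℕ => (x : ZMod p) ^ d = 1).card =
        (((Finset.range p).filter fun x : ℕ => (x : ZMod p) ^ d = 1).image
          (fun x : ℕ => (x : ZMod p))).card := by
      symm
      apply Finset.card_image_of_injOn
      intro x hx y hy hxy
      have hx1 := Finset.mem_range.1 (Finset.mem_filter.1 (Finset.mem_coe.1 hx)).1
      have hy1 := Finset.mem_range.1 (Finset.mem_filter.1 (Finset.mem_coe.1 hy)).1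
      have := (ZMod.natCast_eq_natCast_iff' x y p).1 hxy
      rwa [Nat.mod_eq_of_lt hx1, Nat.mod_eq_of_lt hy1] at this
    rw [h3]
    calc _ ≤ (Polynomial.nthRoots d (1 : ZMod p)).toFinset.card := by
          apply Finset.card_le_card
          intro x hx
          obtain ⟨y, hy, rfl⟩ := Finset.mem_image.1 hx
          rw [Multiset.mem_toFinset, Polynomial.mem_nthRoots (by omega)]
          exact (Finset.mem_filter.1 hy).2
      _ ≤ (Polynomial.nthRoots d (1 : ZMod p)).card := Multiset.toFinset_card_le _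
      _ ≤ d := Polynomial.card_nthRoots d 1

end Pool.Agent.Q15.UM
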