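import Pool.Agent.Q15.UM.U2

/-! The number of the pairs for a given denominator. -/

set_option autoImplicit false

namespace Pool.Agent.Q15.UM

/-- small pairs -/
def Small (b u w : ℕ) : Prop := u ≤ 5 * b ∧ w ≤ 5 * b

/-- large pairs -/
def Large (d b u w : ℕ) : Prop :=
  3 * b ≤ max u w ∧ (max u w - min u w) * (max u w) ^ (d - 2) ≤ 3 * b ^ (d - 1)

lemma prop_small {d b : ℕ} (hd : Even d) (hd4 : 4 ≤ d) (hb : 25 * d < b) {x y : ℕ × ℕ}
    (hx : PairOK d b x.1 x.2) (hy : PairOK d b y.1 y.2) (h : key b x = key b y)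
    (hx' : Small b x.1 x.2) (hy' : Small b y.1 y.2) : x.1 * y.2 = y.1 * x.2 := by
  have h1 := dvd_det hd hd4 (by omega) hx hy h
  have h2 : |(d : ℤ) * (((x.1 * y.2 : ℕ) : ℤ) - ((y.1 * x.2 : ℕ) : ℤ))| <
      ((b ^ (d - 1) : ℕ) : ℤ) := by
    have a1 : x.1 * y.2 ≤ 25 * b ^ 2 := by
      calc x.1 * y.2 ≤ (5 * b) * (5 * b) := Nat.mul_le_mul hx'.1 hy'.2
        _ = 25 * b ^ 2 := by ring
    have a2 : y.1 * x.2 ≤ 25 * b ^ 2 := by
      calc y.1 * x.2 ≤ (5 * b) * (5 * b) := Nat.mul_le_mul hy'.1 hx'.2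
        _ = 25 * b ^ 2 := by ring
    have a3 : d * (25 * b ^ 2) < b ^ (d - 1) := by
      calc d * (25 * b ^ 2) = (25 * d) * b ^ 2 := by ring
        _ < b * b ^ 2 := Nat.mul_lt_mul_of_pos_right hb (pow_pos (by omega) _)
        _ = b ^ 3 := by ring
        _ ≤ b ^ (d - 1) := Nat.pow_le_pow_right (by omega) (by omega)
    have a4 : |((x.1 * y.2 : ℕ) : ℤ) - ((y.1 * x.2 : ℕ) : ℤ)| ≤ ((25 * b ^ 2 : ℕ) : ℤ) := by
      rw [abs_le]
      constructor <;> omega
    rw [abs_mul, Nat.abs_cast]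
    calc (d : ℤ) * |((x.1 * y.2 : ℕ) : ℤ) - ((y.1 * x.2 : ℕ) : ℤ)| ≤
        (d : ℤ) * ((25 * b ^ 2 : ℕ) : ℤ) := mul_le_mul_of_nonneg_left a4 (by positivity)
      _ < ((b ^ (d - 1) : ℕ) : ℤ) := by exact_mod_cast a3
  have h3 := Int.eq_zero_of_abs_lt_dvd h1 h2
  rcases mul_eq_zero.1 h3 with h4 | h4
  · omega
  · have h5 : ((x.1 * y.2 : ℕ) : ℤ) = ((y.1 * x.2 : ℕ) : ℤ) := by linarith
    exact_mod_cast h5

lemma big_ineq {d b U V : ℕ} (hd4 : 4 ≤ d) (hb : 25 * d < b) (hU : 3 * b ≤ U)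
    (hV : V ^ (d - 2) ≤ 3 * b ^ (d - 1)) : 6 * d * V < U ^ (d - 2) := by
  obtain ⟨j, rfl⟩ : ∃ j, d = j + 4 := ⟨d - 4, by omega⟩
  obtain ⟨k, hk⟩ : ∃ k, k = j + 2 := ⟨_, rfl⟩
  have e1 : j + 4 - 2 = k := by omega
  have e2 : j + 4 - 1 = k + 1 := by omega
  rw [e1]
  rw [e1, e2] at hV
  by_contra hcon
  push Not at hcon
  have h1 : (3 * b) ^ (k * k) ≤ (6 * (j + 4)) ^ k * (3 * b ^ (k + 1)) := by
    calc (3 * b) ^ (k * k) = ((3 * b) ^ k) ^ k := pow_mul _ _ _
      _ ≤ (U ^ k) ^ k := by gcongr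
      _ ≤ (6 * (j + 4) * V) ^ k := by gcongr
      _ = (6 * (j + 4)) ^ k * V ^ k := mul_pow _ _ _
      _ ≤ (6 * (j + 4)) ^ k * (3 * b ^ (k + 1)) := Nat.mul_le_mul_left _ hV
  have h25 : ∀ j : ℕ, 3 * (j + 4) < 25 ^ (j + 1) := by
    intro j
    induction j with
    | zero => norm_num
    | succ j ih =>
      rw [pow_succ]
      omega
  have h2 : (6 * (j + 4)) ^ k * (3 * b ^ (k + 1)) < (3 * b) ^ (k * k) := by
    have h3 : (3 * b) ^ (k * 2) ≤ (3 * b) ^ (k * k) :=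
      Nat.pow_le_pow_right (by omega) (Nat.mul_le_mul_left _ (by omega))
    refine lt_of_lt_of_le ?_ h3
    have e3 : (3 * b) ^ (k * 2) = 9 ^ k * (b ^ (k + 1) * b ^ (j + 1)) := by
      rw [mul_pow, pow_mul' 3 k 2, ← pow_add]
      have : k + 1 + (j + 1) = k * 2 := by omega
      rw [this]
      ring
    rw [e3]
    have hb1 : (25 * (j + 4)) ^ (j + 1) ≤ b ^ (j + 1) := Nat.pow_le_pow_left hb.le _
    have hbk : 0 < b ^ (k + 1) := pow_pos (by omega) _
    have h4 : (6 * (j + 4)) ^ k * 3 < 9 ^ k * b ^ (j + 1) := by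
      calc (6 * (j + 4)) ^ k * 3 = 6 ^ k * ((j + 4) ^ (j + 1) * (3 * (j + 4))) := by
            rw [mul_pow, hk]
            ring
        _ < 6 ^ k * ((j + 4) ^ (j + 1) * 25 ^ (j + 1)) := by
            apply Nat.mul_lt_mul_of_pos_left _ (pow_pos (by norm_num) _)
            apply Nat.mul_lt_mul_of_pos_left (h25 j) (pow_pos (by omega) _)
        _ = 6 ^ k * (25 * (j + 4)) ^ (j + 1) := by rw [mul_pow]; ring
        _ ≤ 9 ^ k * b ^ (j + 1) := Nat.mul_le_mul (Nat.pow_le_pow_left (by norm_num) _) hb1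
    calc (6 * (j + 4)) ^ k * (3 * b ^ (k + 1)) = ((6 * (j + 4)) ^ k * 3) * b ^ (k + 1) := by ring
      _ < (9 ^ k * b ^ (j + 1)) * b ^ (k + 1) := Nat.mul_lt_mul_of_pos_right h4 hbk
      _ = 9 ^ k * (b ^ (k + 1) * b ^ (j + 1)) := by ring
  omega

lemma prop_large {d b : ℕ} (hd : Even d) (hd4 : 4 ≤ d) (hb : 25 * d < b) {x y : ℕ × ℕ}
    (hx : PairOK d b x.1 x.2) (hy : PairOK d b y.1 y.2) (h : key b x = key b y)
    (hx' : Large d b x.1 x.2) (hy' : Large d b y.1 y.2) : x.1 * y.2 = y.1 * x.2 := by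
  have h1 := dvd_det hd hd4 (by omega) hx hy h
  obtain ⟨U, hU⟩ : ∃ U, U = max x.1 x.2 := ⟨_, rfl⟩
  obtain ⟨V, hV⟩ : ∃ V, V = max y.1 y.2 := ⟨_, rfl⟩
  obtain ⟨g, hg⟩ : ∃ g, g = max x.1 x.2 - min x.1 x.2 := ⟨_, rfl⟩
  obtain ⟨l, hl⟩ : ∃ l, l = max y.1 y.2 - min y.1 y.2 := ⟨_, rfl⟩
  obtain ⟨x1, x2⟩ := hx'
  obtain ⟨y1, y2⟩ := hy'
  rw [← hU] at x1 x2
  rw [← hU] at hg
  rw [hU, ← hU, ← hg] at x2
  rw [← hV] at y1 y2
  rw [← hV] at hl
  rw [← hl] at y2
  have hg1 : 1 ≤ g := by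
    have := hx.ne
    omega
  have hl1 : 1 ≤ l := by
    have := hy.ne
    omega
  have hUk : U ^ (d - 2) ≤ 3 * b ^ (d - 1) :=
    (Nat.le_mul_of_pos_left _ hg1).trans x2
  have hVk : V ^ (d - 2) ≤ 3 * b ^ (d - 1) :=
    (Nat.le_mul_of_pos_left _ hl1).trans y2
  have c1 := big_ineq hd4 hb x1 hVk
  have c2 := big_ineq hd4 hb y1 hUk
  have d1 : 2 * (d * (V * g)) < b ^ (d - 1) := by
    have : g * (6 * d * V) < g * U ^ (d - 2) := Nat.mul_lt_mul_of_pos_left c1 hg1
    have e : g * (6 * d * V) = 3 * (2 * (d * (V * g))) := by ring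
    omega
  have d2 : 2 * (d * (U * l)) < b ^ (d - 1) := by
    have : l * (6 * d * U) < l * V ^ (d - 2) := Nat.mul_lt_mul_of_pos_left c2 hl1
    have e : l * (6 * d * U) = 3 * (2 * (d * (U * l))) := by ring
    omega
  have h2 : |(d : ℤ) * (((x.1 * y.2 : ℕ) : ℤ) - ((y.1 * x.2 : ℕ) : ℤ))| <
      ((b ^ (d - 1) : ℕ) : ℤ) := by
    have a1 : |((y.2 : ℤ) - y.1)| = l := by
      rw [hl, hV]
      rcases le_total y.1 y.2 with h | h
      · rw [max_eq_right h, min_eq_left h, abs_of_nonneg (by omega)]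
        omega
      · rw [max_eq_left h, min_eq_right h, abs_of_nonpos (by omega)]
        omega
    have a2 : |((x.2 : ℤ) - x.1)| = g := by
      rw [hg, hU]
      rcases le_total x.1 x.2 with h | h
      · rw [max_eq_right h, min_eq_left h, abs_of_nonneg (by omega)]
        omega
      · rw [max_eq_left h, min_eq_right h, abs_of_nonpos (by omega)]
        omega
    have a3 : ((x.1 * y.2 : ℕ) : ℤ) - ((y.1 * x.2 : ℕ) : ℤ) =
        x.1 * ((y.2 : ℤ) - y.1) - y.1 * ((x.2 : ℤ) - x.1) := by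
      push_cast
      ring
    have a4 : |((x.1 * y.2 : ℕ) : ℤ) - ((y.1 * x.2 : ℕ) : ℤ)| ≤ ((U * l + V * g : ℕ) : ℤ) := by
      rw [a3]
      refine (abs_sub _ _).trans ?_
      rw [abs_mul, abs_mul, a1, a2, Nat.abs_cast, Nat.abs_cast]
      have b1 : x.1 ≤ U := by rw [hU]; exact le_max_left _ _
      have b2 : y.1 ≤ V := by rw [hV]; exact le_max_left _ _
      have b3 : x.1 * l + y.1 * g ≤ U * l + V * g :=
        Nat.add_le_add (Nat.mul_le_mul_right _ b1) (Nat.mul_le_mul_right _ b2)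
      exact_mod_cast b3
    rw [abs_mul, Nat.abs_cast]
    calc (d : ℤ) * |((x.1 * y.2 : ℕ) : ℤ) - ((y.1 * x.2 : ℕ) : ℤ)| ≤
        (d : ℤ) * ((U * l + V * g : ℕ) : ℤ) := mul_le_mul_of_nonneg_left a4 (by positivity)
      _ = ((d * (U * l) + d * (V * g) : ℕ) : ℤ) := by push_cast; ring
      _ < ((b ^ (d - 1) : ℕ) : ℤ) := by
          have : d * (U * l) + d * (V * g) < b ^ (d - 1) := by omega
          exact_mod_cast this
  have h3 := Int.eq_zero_of_abs_lt_dvd h1 h2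
  rcases mul_eq_zero.1 h3 with h4 | h4
  · omega
  · have h5 : ((x.1 * y.2 : ℕ) : ℤ) = ((y.1 * x.2 : ℕ) : ℤ) := by linarith
    exact_mod_cast h5

/-- proportional pairs -/
lemma prop_card {d b : ℕ} (hd : Even d) (hd4 : 4 ≤ d) (S : Finset (ℕ × ℕ))
    (hS : ∀ x ∈ S, PairOK d b x.1 x.2) (hprop : ∀ x ∈ S, ∀ y ∈ S, x.1 * y.2 = y.1 * x.2) (T : ℕ)
    (hT : ∀ g : ℕ, ∀ x ∈ S, g ^ d * b ^ (d - 1) ≤ (max x.1 x.2) ^ d → g ≤ T) : S.card ≤ T := by
  classical
  have key : ∀ x ∈ S, ∃ a a' : ℕ, Nat.Coprime a a' ∧ x.1 = Nat.gcd x.1 x.2 * a ∧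
      x.2 = Nat.gcd x.1 x.2 * a' := by
    intro x hx
    have hg : 0 < Nat.gcd x.1 x.2 := by
      rw [Nat.gcd_pos_iff]
      have := (hS x hx).ne
      omega
    obtain ⟨a, a', h1, h2, h3⟩ := Nat.exists_coprime x.1 x.2
    exact ⟨a, a', h1, by rw [mul_comm]; exact h2, by rw [mul_comm]; exact h3⟩
  have hle : (S.image fun x : ℕ × ℕ => Nat.gcd x.1 x.2) ⊆ Finset.Icc 1 T := by
    intro g hg
    obtain ⟨x, hx, rfl⟩ := Finset.mem_image.1 hg
    have hok := hS x hx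
    have hg0 : 0 < Nat.gcd x.1 x.2 := by
      rw [Nat.gcd_pos_iff]
      have := hok.ne
      omega
    rw [Finset.mem_Icc]
    refine ⟨hg0, hT _ x hx ?_⟩
    obtain ⟨a, a', hco, h1, h2⟩ := key x hx
    obtain ⟨g, hgd⟩ : ∃ g, g = Nat.gcd x.1 x.2 := ⟨_, rfl⟩
    rw [← hgd] at h1 h2 hg0 ⊢
    have hne : a ≠ a' := by
      rintro rfl
      exact hok.ne (by rw [h1, h2])
    have hgb : Nat.Coprime g b := by
      refine Nat.Coprime.coprime_dvd_left ?_ hok.cu
      rw [hgd]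
      exact Nat.gcd_dvd_left _ _
    have hdv : ((b : ℤ) ^ (d - 1)) ∣ (a : ℤ) ^ d - (a' : ℤ) ^ d := by
      have h3 := hok.dv
      rw [h1, h2] at h3
      push_cast at h3
      rw [mul_pow, mul_pow, ← mul_sub] at h3
      refine IsCoprime.dvd_of_dvd_mul_left ?_ h3
      exact (IsCoprime.pow (Nat.isCoprime_iff_coprime.2 hgb)).symm
    have hne2 : (a : ℤ) ^ d - (a' : ℤ) ^ d ≠ 0 := by
      intro h
      have h3 : a ^ d = a' ^ d := by
        have : (a : ℤ) ^ d = (a' : ℤ) ^ d := by linarith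
        exact_mod_cast this
      exact hne (Nat.pow_left_injective (by omega) h3)
    have h4 : ((b : ℤ) ^ (d - 1)) ≤ ((max a a' : ℕ) : ℤ) ^ d := by
      refine (Int.le_of_dvd (abs_pos.2 hne2) ((dvd_abs _ _).2 hdv)).trans ?_
      have b1 : (a : ℤ) ^ d ≤ ((max a a' : ℕ) : ℤ) ^ d := by
        have : a ^ d ≤ (max a a') ^ d := Nat.pow_le_pow_left (le_max_left _ _) _
        exact_mod_cast this
      have b2 : (a' : ℤ) ^ d ≤ ((max a a' : ℕ) : ℤ) ^ d := by
        have : a' ^ d ≤ (max a a') ^ d := Nat.pow_le_pow_left (le_max_right _ _) _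
        exact_mod_cast this
      have b3 : 0 ≤ (a : ℤ) ^ d := by positivity
      have b4 : 0 ≤ (a' : ℤ) ^ d := by positivity
      rw [abs_le]
      constructor <;> linarith
    have h5 : b ^ (d - 1) ≤ (max a a') ^ d := by exact_mod_cast h4
    have h6 : max x.1 x.2 = g * max a a' := by
      rw [h1, h2]
      exact (Nat.mul_max_mul_left g a a').symm ▸ rfl
    rw [h6, mul_pow]
    exact Nat.mul_le_mul_left _ h5
  have hinj : Set.InjOn (fun x : ℕ × ℕ => Nat.gcd x.1 x.2) S := by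
    intro x hx y hy hxy
    have hx' := Finset.mem_coe.1 hx
    have hy' := Finset.mem_coe.1 hy
    obtain ⟨a, a', hco, h1, h2⟩ := key x hx'
    obtain ⟨e, e', hco2, h3, h4⟩ := key y hy'
    simp only at hxy
    obtain ⟨g, hgd⟩ : ∃ g, g = Nat.gcd x.1 x.2 := ⟨_, rfl⟩
    rw [← hgd] at h1 h2
    rw [← hxy, ← hgd] at h3 h4
    have hg0 : 0 < g := by
      rw [hgd, Nat.gcd_pos_iff]
      have := (hS x hx').ne
      omega
    have h5 := hprop x hx' y hy'
    rw [h1, h2, h3, h4] at h5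
    have h6 : a * e' = e * a' := by
      have : g * g * (a * e') = g * g * (e * a') := by
        calc g * g * (a * e') = g * a * (g * e') := by ring
          _ = g * e * (g * a') := h5
          _ = g * g * (e * a') := by ring
      exact Nat.eq_of_mul_eq_mul_left (Nat.mul_pos hg0 hg0) this
    have h7 : a = e := by
      apply Nat.dvd_antisymm
      · refine (Nat.Coprime.dvd_of_dvd_mul_right hco ?_)
        rw [← h6]
        exact Dvd.intro _ rfl
      · refine (Nat.Coprime.dvd_of_dvd_mul_right hco2 ?_)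
        rw [h6]
        exact Dvd.intro _ rfl
    have h8 : a' = e' := by
      apply Nat.dvd_antisymm
      · refine (Nat.Coprime.dvd_of_dvd_mul_left hco.symm ?_)
        rw [h6]
        exact Dvd.intro_left _ rfl
      · refine (Nat.Coprime.dvd_of_dvd_mul_left hco2.symm ?_)
        rw [← h6]
        exact Dvd.intro_left _ rfl
    apply Prod.ext
    · rw [h1, h3, h7]
    · rw [h2, h4, h8]
  rw [← Finset.card_image_of_injOn hinj]
  refine (Finset.card_le_card hle).trans ?_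
  rw [Nat.card_Icc]
  omega

/-- the number of pairs from the number in each class -/
lemma card_classes {d b : ℕ} (hd4 : 4 ≤ d) (S : Finset (ℕ × ℕ))
    (hS : ∀ x ∈ S, PairOK d b x.1 x.2) (n : ℕ)
    (hn : ∀ S' : Finset (ℕ × ℕ), S' ⊆ S → (∀ x ∈ S', ∀ y ∈ S', key b x = key b y) →
      S'.card ≤ n) : S.card ≤ n * d ^ b.primeFactors.card := by
  classical
  refine (Finset.card_le_mul_card_image (f := key b) S n ?_).trans
    (Nat.mul_le_mul_left _ ((Finset.card_le_card ?_).trans (card_keys hd4)))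
  · intro k hk
    apply hn _ (Finset.filter_subset _ _)
    intro x hx y hy
    rw [(Finset.mem_filter.1 hx).2, (Finset.mem_filter.1 hy).2]
  · intro k hk
    obtain ⟨x, hx, rfl⟩ := Finset.mem_image.1 hk
    exact key_mem (by omega) (hS x hx)

theorem card_pairs {d b : ℕ} (hd : Even d) (hd4 : 4 ≤ d) (hb : 25 * d < b) (S : Finset (ℕ × ℕ))
    (hS : ∀ x ∈ S, PairOK d b x.1 x.2 ∧ (Small b x.1 x.2 ∨ Large d b x.1 x.2)) (T : ℕ)
    (hT : ∀ g : ℕ, ∀ x ∈ S, g ^ d * b ^ (d - 1) ≤ (max x.1 x.2) ^ d → g ≤ T) :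
    S.card ≤ 2 * (T * d ^ b.primeFactors.card) := by
  classical
  have h1 : (S.filter fun x => Small b x.1 x.2).card ≤ T * d ^ b.primeFactors.card := by
    apply card_classes hd4 _ (fun x hx => (hS x (Finset.mem_filter.1 hx).1).1)
    intro S' hS' hk
    apply prop_card hd hd4 S' (fun x hx => (hS x (Finset.mem_filter.1 (hS' hx)).1).1)
    · intro x hx y hy
      exact prop_small hd hd4 hb (hS x (Finset.mem_filter.1 (hS' hx)).1).1
        (hS y (Finset.mem_filter.1 (hS' hy)).1).1 (hk x hx y hy)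
        (Finset.mem_filter.1 (hS' hx)).2 (Finset.mem_filter.1 (hS' hy)).2
    · intro g x hx
      exact hT g x (Finset.mem_filter.1 (hS' hx)).1
  have h2 : (S.filter fun x => ¬ Small b x.1 x.2).card ≤ T * d ^ b.primeFactors.card := by
    have hlarge : ∀ x ∈ S.filter (fun x => ¬ Small b x.1 x.2), Large d b x.1 x.2 := by
      intro x hx
      obtain ⟨h3, h4⟩ := Finset.mem_filter.1 hx
      exact (hS x h3).2.resolve_left h4
    apply card_classes hd4 _ (fun x hx => (hS x (Finset.mem_filter.1 hx).1).1)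
    intro S' hS' hk
    apply prop_card hd hd4 S' (fun x hx => (hS x (Finset.mem_filter.1 (hS' hx)).1).1)
    · intro x hx y hy
      exact prop_large hd hd4 hb (hS x (Finset.mem_filter.1 (hS' hx)).1).1
        (hS y (Finset.mem_filter.1 (hS' hy)).1).1 (hk x hx y hy)
        (hlarge x (hS' hx)) (hlarge y (hS' hy))
    · intro g x hx
      exact hT g x (Finset.mem_filter.1 (hS' hx)).1
  have h3 := Finset.card_filter_add_card_filter_not (s := S) (fun x => Small b x.1 x.2)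
  omega

/-- pairs with a given first entry -/
theorem card_second {d b u : ℕ} (hd : Even d) (hd4 : 4 ≤ d) (hb : 25 * d < b) (S : Finset ℕ)
    (hS : ∀ w ∈ S, PairOK d b u w ∧ (Small b u w ∨ Large d b u w)) :
    S.card ≤ 2 * d ^ b.primeFactors.card := by
  classical
  by_cases hu : u = 0
  · rcases S.eq_empty_or_nonempty with h | ⟨w, hw⟩
    · rw [h, Finset.card_empty]
      exact Nat.zero_le _
    · exfalso
      have := (hS w hw).1.cu
      rw [hu, Nat.coprime_zero_left] at this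
      omega
  set S2 : Finset (ℕ × ℕ) := S.image fun w => (u, w) with hS2
  have hcard : S2.card = S.card := by
    apply Finset.card_image_of_injective
    intro a b hab
    exact (Prod.mk.inj hab).2
  have hmem : ∀ x ∈ S2, x.1 = u ∧ PairOK d b x.1 x.2 ∧ (Small b x.1 x.2 ∨ Large d b x.1 x.2) := by
    intro x hx
    obtain ⟨w, hw, rfl⟩ := Finset.mem_image.1 hx
    exact ⟨rfl, hS w hw⟩
  rw [← hcard]
  have hone : ∀ S' : Finset (ℕ × ℕ), (∀ x ∈ S', x.1 = u) →
      (∀ x ∈ S', ∀ y ∈ S', x.1 * y.2 = y.1 * x.2) → S'.card ≤ 1 := by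
    intro S' h1 h2
    rw [Finset.card_le_one]
    intro x hx y hy
    have h3 := h2 x hx y hy
    rw [h1 x hx, h1 y hy] at h3
    have h4 := Nat.eq_of_mul_eq_mul_left (Nat.pos_of_ne_zero hu) h3
    apply Prod.ext
    · rw [h1 x hx, h1 y hy]
    · exact h4.symm
  have h1 : (S2.filter fun x => Small b x.1 x.2).card ≤ 1 * d ^ b.primeFactors.card := by
    apply card_classes hd4 _ (fun x hx => (hmem x (Finset.mem_filter.1 hx).1).2.1)
    intro S' hS' hk
    apply hone S' (fun x hx => (hmem x (Finset.mem_filter.1 (hS' hx)).1).1)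
    intro x hx y hy
    exact prop_small hd hd4 hb (hmem x (Finset.mem_filter.1 (hS' hx)).1).2.1
      (hmem y (Finset.mem_filter.1 (hS' hy)).1).2.1 (hk x hx y hy)
      (Finset.mem_filter.1 (hS' hx)).2 (Finset.mem_filter.1 (hS' hy)).2
  have h2 : (S2.filter fun x => ¬ Small b x.1 x.2).card ≤ 1 * d ^ b.primeFactors.card := by
    have hlarge : ∀ x ∈ S2.filter (fun x => ¬ Small b x.1 x.2), Large d b x.1 x.2 := by
      intro x hx
      obtain ⟨h3, h4⟩ := Finset.mem_filter.1 hx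
      exact (hmem x h3).2.2.resolve_left h4
    apply card_classes hd4 _ (fun x hx => (hmem x (Finset.mem_filter.1 hx).1).2.1)
    intro S' hS' hk
    apply hone S' (fun x hx => (hmem x (Finset.mem_filter.1 (hS' hx)).1).1)
    intro x hx y hy
    exact prop_large hd hd4 hb (hmem x (Finset.mem_filter.1 (hS' hx)).1).2.1
      (hmem y (Finset.mem_filter.1 (hS' hy)).1).2.1 (hk x hx y hy)
      (hlarge x (hS' hx)) (hlarge y (hS' hy))
  have h3 := Finset.card_filter_add_card_filter_not (s := S2) (fun x => Small b x.1 x.2)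
  omega

end Pool.Agent.Q15.UM
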