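import Pool.Agent.Q15.UM.U1
import Pool.Agent.Q15.UM.U3

/-! The pairs of a parameter, and the number of the preperiodic points of one parameter. -/

set_option autoImplicit false

namespace Pool.Agent.Q15.UM

variable {d : ℕ} {c : ℚ}

lemma abs_eq_div (x : ℚ) : |x| = (x.num.natAbs : ℚ) / (x.den : ℚ) := by
  conv_lhs => rw [← Rat.num_div_den x]
  rw [abs_div, Nat.abs_cast]
  congr 1
  rw [← Int.cast_abs, Int.abs_eq_natAbs]
  rfl

lemma eq_or_neg {x y : ℚ} (hd : x.den = y.den) (hn : x.num.natAbs = y.num.natAbs) :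
    x = y ∨ x = -y := by
  rcases Int.natAbs_eq_natAbs_iff.1 hn with h | h
  · left
    rw [← Rat.num_div_den x, ← Rat.num_div_den y, hd, h]
  · right
    rw [← Rat.num_div_den x, ← Rat.num_div_den y, hd, h]
    push_cast
    ring

/-- two preperiodic points give a pair -/
theorem pair_of (hd : Even d) (hd4 : 4 ≤ d) {x y : ℚ} (hx : x ∈ Pre d c) (hy : y ∈ Pre d c)
    (hne : x.num.natAbs ≠ y.num.natAbs) :
    PairOK d x.den x.num.natAbs y.num.natAbs ∧
      (Small x.den x.num.natAbs y.num.natAbs ∨ Large d x.den x.num.natAbs y.num.natAbs) := by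
  have hden := den_eq (by omega) hy hx
  have hb : (0 : ℚ) < x.den := by exact_mod_cast x.den_pos
  have hax := abs_eq_div x
  have hay := abs_eq_div y
  rw [hden] at hay
  refine ⟨⟨hne, x.reduced, ?_, ?_⟩, ?_⟩
  · rw [← hden]
    exact y.reduced
  · have h1 := cong (by omega) hx hy
    rw [Int.natCast_natAbs, Int.natCast_natAbs, hd.pow_abs, hd.pow_abs]
    exact h1
  · rcases lt_or_ge |c| (4 ^ d) with hc | hc
    · left
      have h1 := small_abs hd4 hc hx
      have h2 := small_abs hd4 hc hy
      rw [hax, div_le_iff₀ hb] at h1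
      rw [hay, div_le_iff₀ hb] at h2
      exact ⟨by exact_mod_cast h1, by exact_mod_cast h2⟩
    · right
      obtain ⟨h1, h2⟩ := large_pair hd4 hd hc hx hy
      obtain ⟨u, hu⟩ : ∃ u, u = x.num.natAbs := ⟨_, rfl⟩
      obtain ⟨w, hw⟩ : ∃ w, w = y.num.natAbs := ⟨_, rfl⟩
      rw [hax, hay, ← hu, ← hw] at h1 h2
      rw [← hu, ← hw]
      have hmax : max ((u : ℚ) / x.den) ((w : ℚ) / x.den) = ((max u w : ℕ) : ℚ) / x.den := by
        rw [max_div_div_right hb.le]
        push_cast
        rfl
      have hdiff : |((u : ℚ) / x.den - (w : ℚ) / x.den)| =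
          ((max u w - min u w : ℕ) : ℚ) / x.den := by
        rw [← sub_div, abs_div, Nat.abs_cast]
        congr 1
        rcases le_total u w with h | h
        · rw [max_eq_right h, min_eq_left h, Nat.cast_sub h, abs_of_nonpos]
          · ring
          · have : (u : ℚ) ≤ w := by exact_mod_cast h
            linarith
        · rw [max_eq_left h, min_eq_right h, Nat.cast_sub h, abs_of_nonneg]
          have : (w : ℚ) ≤ u := by exact_mod_cast h
          linarith
      rw [hmax] at h1 h2
      rw [hdiff] at h2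
      constructor
      · rw [le_div_iff₀ hb] at h1
        exact_mod_cast h1
      · rw [div_pow, div_mul_div_comm, ← pow_succ', show d - 2 + 1 = d - 1 by omega,
          div_le_iff₀ (pow_pos hb _)] at h2
        exact_mod_cast h2

/-- the size of the numerators -/
lemma num_pow_le (hd4 : 4 ≤ d) {X : ℝ} {x : ℚ} (hx : x ∈ Pre d c)
    (hn : ((|c.num| : ℤ) : ℝ) ≤ X) (hX : (c.den : ℝ) ≤ X) :
    ((x.num.natAbs : ℝ)) ^ d ≤ 2 ^ d * X ∧ (x.den : ℝ) ^ d ≤ X := by
  have hden := den_pow (by omega) hx
  have hb : (0 : ℚ) < x.den := by exact_mod_cast x.den_pos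
  have hax := abs_eq_div x
  have h0 : (x.den : ℝ) ^ d ≤ X := by
    rw [hden] at hX
    exact_mod_cast hX
  refine ⟨?_, h0⟩
  rcases abs_le_or hd4 hx with h | h
  · rw [hax, div_lt_iff₀ hb] at h
    have h1 : (x.num.natAbs : ℝ) < 2 * x.den := by exact_mod_cast h
    calc (x.num.natAbs : ℝ) ^ d ≤ (2 * x.den) ^ d := by gcongr
      _ = 2 ^ d * (x.den : ℝ) ^ d := mul_pow _ _ _
      _ ≤ 2 ^ d * X := by gcongr
  · rw [hax, abs_eq_div c, div_pow, hden] at h
    push_cast at h
    rw [mul_div_assoc', div_le_div_iff_of_pos_right (pow_pos hb d)] at h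
    have h1 : (x.num.natAbs : ℝ) ^ d ≤ 2 * c.num.natAbs := by exact_mod_cast h
    have h2 : (c.num.natAbs : ℝ) ≤ X := by
      have : ((|c.num| : ℤ) : ℝ) = (c.num.natAbs : ℝ) := by
        rw [Int.abs_eq_natAbs]
        rfl
      rwa [this] at hn
    have h3 : (2 : ℝ) ≤ 2 ^ d := by
      calc (2 : ℝ) = 2 ^ 1 := (pow_one _).symm
        _ ≤ 2 ^ d := pow_le_pow_right₀ (by norm_num) (by omega)
    have h4 : 0 ≤ X := le_trans (by positivity) h2
    nlinarith

/-- entries of the pairs for a small denominator -/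
lemma entry_le {b u w : ℕ} (hd4 : 4 ≤ d) (hb : 1 ≤ b) (hb2 : b ≤ 25 * d) (hne : u ≠ w)
    (h : Small b u w ∨ Large d b u w) : u ≤ 5 * (25 * d) ^ (d - 1) ∧ w ≤ 5 * (25 * d) ^ (d - 1) := by
  have h1 : b ≤ (25 * d) ^ (d - 1) := hb2.trans (Nat.le_self_pow (by omega) _)
  rcases h with ⟨h2, h3⟩ | ⟨-, h3⟩
  · constructor <;> omega
  · have h4 : 1 ≤ max u w - min u w := by omega
    have h5 : max u w ≤ (max u w) ^ (d - 2) := by
      rcases Nat.eq_zero_or_pos (max u w) with h6 | h6
      · rw [h6]
        exact Nat.zero_le _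
      · exact Nat.le_self_pow (by omega) _
    have h6 : max u w ≤ 3 * b ^ (d - 1) :=
      (h5.trans (Nat.le_mul_of_pos_left _ h4)).trans h3
    have h7 : b ^ (d - 1) ≤ (25 * d) ^ (d - 1) := Nat.pow_le_pow_left hb2 _
    have h8 : max u w ≤ 5 * (25 * d) ^ (d - 1) := by omega
    exact ⟨(le_max_left _ _).trans h8, (le_max_right _ _).trans h8⟩

/-- the constant in the bound for the number of preperiodic points -/
def K1 (d : ℕ) : ℕ := 6 + 10 * (25 * d) ^ (d - 1)

/-- the number of the preperiodic points of one parameter -/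
theorem card_pre (hd : Even d) (hd4 : 4 ≤ d) {x0 : ℚ} (hx0 : x0 ∈ Pre d c) (S : Finset ℚ)
    (hS : ∀ x ∈ S, x ∈ Pre d c) : S.card ≤ K1 d * d ^ x0.den.primeFactors.card := by
  classical
  set I : Finset ℕ := S.image fun x => x.num.natAbs with hI
  have h1 : S.card ≤ 2 * I.card := by
    refine Finset.card_le_mul_card_image S 2 fun n hn => ?_
    obtain ⟨y, hy, rfl⟩ := Finset.mem_image.1 hn
    have h2 : S.filter (fun x => x.num.natAbs = y.num.natAbs) ⊆ {y, -y} := by
      intro x hx
      obtain ⟨hx1, hx2⟩ := Finset.mem_filter.1 hx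
      rw [Finset.mem_insert, Finset.mem_singleton]
      exact eq_or_neg (den_eq (by omega) (hS x hx1) (hS y hy)) hx2
    exact (Finset.card_le_card h2).trans Finset.card_le_two
  have hmem : ∀ w ∈ I.erase x0.num.natAbs, PairOK d x0.den x0.num.natAbs w ∧
      (Small x0.den x0.num.natAbs w ∨ Large d x0.den x0.num.natAbs w) := by
    intro w hw
    obtain ⟨hw1, hw2⟩ := Finset.mem_erase.1 hw
    obtain ⟨y, hy, rfl⟩ := Finset.mem_image.1 hw2
    exact pair_of hd hd4 hx0 (hS y hy) (Ne.symm hw1)
  have h2 : (I.erase x0.num.natAbs).card ≤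
      (2 + 5 * (25 * d) ^ (d - 1)) * d ^ x0.den.primeFactors.card := by
    have hpos : 1 ≤ d ^ x0.den.primeFactors.card := Nat.one_le_pow _ _ (by omega)
    rcases Nat.lt_or_ge (25 * d) x0.den with hb | hb
    · refine (card_second hd hd4 hb _ hmem).trans ?_
      exact Nat.mul_le_mul_right _ (by omega)
    · have h3 : I.erase x0.num.natAbs ⊆ Finset.range (5 * (25 * d) ^ (d - 1) + 1) := by
        intro w hw
        rw [Finset.mem_range]
        obtain ⟨h4, h5⟩ := hmem w hw
        have := (entry_le hd4 x0.den_pos hb h4.ne h5).2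
        omega
      have h4 := Finset.card_le_card h3
      rw [Finset.card_range] at h4
      calc _ ≤ 5 * (25 * d) ^ (d - 1) + 1 := h4
        _ ≤ (2 + 5 * (25 * d) ^ (d - 1)) * 1 := by omega
        _ ≤ _ := Nat.mul_le_mul_left _ hpos
  have h3 := Finset.pred_card_le_card_erase (s := I) (a := x0.num.natAbs)
  have hpos : 1 ≤ d ^ x0.den.primeFactors.card := Nat.one_le_pow _ _ (by omega)
  have h4 : I.card ≤ (2 + 5 * (25 * d) ^ (d - 1)) * d ^ x0.den.primeFactors.card + 1 := by omega
  calc S.card ≤ 2 * I.card := h1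
    _ ≤ 2 * ((2 + 5 * (25 * d) ^ (d - 1)) * d ^ x0.den.primeFactors.card + 1) := by omega
    _ ≤ 2 * ((2 + 5 * (25 * d) ^ (d - 1)) * d ^ x0.den.primeFactors.card +
        d ^ x0.den.primeFactors.card) := by omega
    _ = K1 d * d ^ x0.den.primeFactors.card := by
        unfold K1
        ring

theorem pre_finite (hd : Even d) (hd4 : 4 ≤ d) (c : ℚ) : (Pre d c).Finite := by
  rcases (Pre d c).eq_empty_or_nonempty with h | ⟨x0, hx0⟩
  · rw [h]
    exact Set.finite_empty
  · by_contra hinf
    obtain ⟨S, hS, hc⟩ := Set.Infinite.exists_subset_card_eq hinf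
      (K1 d * d ^ x0.den.primeFactors.card + 1)
    have := card_pre hd hd4 hx0 S hS
    omega

theorem ncard_pre (hd : Even d) (hd4 : 4 ≤ d) {x0 : ℚ} (hx0 : x0 ∈ Pre d c) :
    (Pre d c).ncard ≤ K1 d * d ^ x0.den.primeFactors.card := by
  rw [Set.ncard_eq_toFinset_card _ (pre_finite hd hd4 c)]
  exact card_pre hd hd4 hx0 _ (by simp)

/-- a parameter with a number of preperiodic points other than zero and two comes from a pair -/
theorem bad_pair (hd : Even d) (hd4 : 4 ≤ d) (hne : (Pre d c).Nonempty)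
    (h2 : (Pre d c).ncard ≠ 2) : ∃ x ∈ Pre d c, ∃ y ∈ Pre d c, x.num.natAbs ≠ y.num.natAbs ∧
      (c = y - x ^ d ∨ c = x - x ^ d) := by
  -- two points which are not opposite
  have hfin := pre_finite hd hd4 c
  have hd0 : d ≠ 0 := by omega
  have key : ∃ z ∈ Pre d c, ∃ w ∈ Pre d c, z ≠ w ∧ z ≠ -w := by
    by_contra hcon
    push Not at hcon
    obtain ⟨z, hz⟩ := hne
    have hall : Pre d c = {z, -z} := by
      ext w
      constructor
      · intro hw
        by_cases hzw : w = z
        · exact Or.inl hzw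
        · have := hcon w hw z hz hzw
          exact Or.inr this
      · rintro (rfl | rfl)
        · exact hz
        · exact pre_neg hd hz
    by_cases hz0 : z = 0
    · subst hz0
      have h3 : fc d c 0 ∈ Pre d c := pre_step hz
      rw [hall, neg_zero, Set.pair_eq_singleton, Set.mem_singleton_iff] at h3
      unfold fc at h3
      rw [zero_pow hd0, zero_add] at h3
      have h4 : (1 : ℚ) ∈ Pre d c := by
        refine Set.Finite.subset (Set.finite_singleton (1 : ℚ)) ?_
        rintro _ ⟨k, rfl⟩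
        rw [Set.mem_singleton_iff]
        induction k with
        | zero => rfl
        | succ k ih =>
          have ih' : (fc d c)^[k] 1 = 1 := ih
          simp only
          rw [Function.iterate_succ_apply', ih']
          unfold fc
          rw [h3, one_pow, add_zero]
      rw [hall] at h4
      rcases h4 with h4 | h4
      · exact one_ne_zero h4
      · rw [Set.mem_singleton_iff, neg_zero] at h4
        exact one_ne_zero h4
    · apply h2
      rw [hall, Set.ncard_pair]
      intro h
      apply hz0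
      linarith
  have hnum : ∀ x ∈ Pre d c, ∀ y ∈ Pre d c, x ≠ y → x ≠ -y → x.num.natAbs ≠ y.num.natAbs := by
    intro x hx y hy h3 h4 h5
    rcases eq_or_neg (den_eq (by omega) hx hy) h5 with h6 | h6
    · exact h3 h6
    · exact h4 h6
  by_cases hA : ∃ x ∈ Pre d c, fc d c x ≠ x ∧ fc d c x ≠ -x
  · obtain ⟨x, hx, h3, h4⟩ := hA
    refine ⟨x, hx, fc d c x, pre_step hx, ?_, Or.inl ?_⟩
    · refine hnum x hx _ (pre_step hx) (Ne.symm h3) ?_
      intro h5
      apply h4
      rw [h5, neg_neg]
      rw [← h5]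
    · unfold fc
      ring
  · push Not at hA
    have hfix : ∀ x ∈ Pre d c, ∃ x', (x' = x ∨ x' = -x) ∧ x' ∈ Pre d c ∧ fc d c x' = x' := by
      intro x hx
      by_cases h3 : fc d c x = x
      · exact ⟨x, Or.inl rfl, hx, h3⟩
      · have h4 := hA x hx h3
        exact ⟨-x, Or.inr rfl, pre_neg hd hx, by rw [fc_neg hd, h4]⟩
    obtain ⟨z, hz, w, hw, hzw, hzw'⟩ := key
    obtain ⟨z', hz1, hz2, hz3⟩ := hfix z hz
    obtain ⟨w', hw1, hw2, -⟩ := hfix w hw
    refine ⟨z', hz2, w', hw2, ?_, Or.inr ?_⟩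
    · apply hnum z' hz2 w' hw2
      · rcases hz1 with rfl | rfl <;> rcases hw1 with rfl | rfl
        · exact hzw
        · exact hzw'
        · intro h
          apply hzw'
          rw [← h, neg_neg]
        · intro h
          exact hzw (neg_injective h)
      · rcases hz1 with rfl | rfl <;> rcases hw1 with rfl | rfl
        · exact hzw'
        · rw [neg_neg]
          exact hzw
        · intro h
          exact hzw (neg_injective h)
        · rw [neg_neg]
          intro h
          apply hzw'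
          rw [← h, neg_neg]
    · unfold fc at hz3
      linarith

/-- a parameter with exactly two preperiodic points has a fixed point -/
theorem good_fixed (hd : Even d) (hd4 : 4 ≤ d) (h2 : (Pre d c).ncard = 2) :
    ∃ x : ℚ, x ≠ 0 ∧ fc d c x = x ∧ Pre d c = {x, -x} := by
  have hfin := pre_finite hd hd4 c
  have hd0 : d ≠ 0 := by omega
  obtain ⟨x, y, hxy, he⟩ := Set.ncard_eq_two.1 h2
  have hx : x ∈ Pre d c := by rw [he]; exact Or.inl rfl
  have hy : y ∈ Pre d c := by rw [he]; exact Or.inr rfl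
  have key : ∃ z ∈ Pre d c, z ≠ 0 ∧ Pre d c = {z, -z} := by
    by_cases h0 : x = 0
    · have hy0 : y ≠ 0 := fun h => hxy (by rw [h0, h])
      have h3 := pre_neg hd hy
      rw [he] at h3
      rcases h3 with h3 | h3
      · exact absurd (neg_eq_zero.1 (h3.trans h0)) hy0
      · rw [Set.mem_singleton_iff] at h3
        exfalso
        apply hy0
        linarith
    · have h3 := pre_neg hd hx
      rw [he] at h3
      rcases h3 with h3 | h3
      · exfalso
        apply h0
        linarith
      · rw [Set.mem_singleton_iff] at h3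
        exact ⟨x, hx, h0, by rw [he, ← h3]⟩
  obtain ⟨z, hz, hz0, hez⟩ := key
  have h3 := pre_step hz
  rw [hez] at h3
  rcases h3 with h3 | h3
  · exact ⟨z, hz0, h3, hez⟩
  · rw [Set.mem_singleton_iff] at h3
    refine ⟨-z, neg_ne_zero.2 hz0, by rw [fc_neg hd, h3], ?_⟩
    rw [hez, neg_neg, Set.pair_comm]

end Pool.Agent.Q15.UM
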