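import Pool.Agent.Q15.UM.U4
import Pool.Agent.Q15.UM.U5

/-! The number of the parameters of height at most `X` with rational preperiodic points. -/

set_option autoImplicit false

namespace Pool.Agent.Q15.UM

open Real

/-- parameters of height at most `X` with a rational preperiodic point -/
def Par (d : ℕ) (X : ℝ) : Set ℚ :=
  {c | ((|c.num| : ℤ) : ℝ) ≤ X ∧ (c.den : ℝ) ≤ X ∧ (Pre d c).Nonempty}

/-- ... with a number of preperiodic points other than two -/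
def Bad (d : ℕ) (X : ℝ) : Set ℚ := {c | c ∈ Par d X ∧ (Pre d c).ncard ≠ 2}

open Classical in
/-- the pairs for the denominator `b`, with entries at most `M` -/
noncomputable def pairs (d M b : ℕ) : Finset (ℕ × ℕ) :=
  (Finset.range (M + 1) ×ˢ Finset.range (M + 1)).filter fun x =>
    PairOK d b x.1 x.2 ∧ (Small b x.1 x.2 ∨ Large d b x.1 x.2)

/-- the parameter of a datum -/
def par (d : ℕ) (t : (ℕ × ℕ × ℕ) × Bool × Bool) : ℚ :=
  (if t.2.1 then (1 : ℚ) else -1) * ((if t.2.2 then (t.1.2.1 : ℚ) else (t.1.2.2 : ℚ)) / t.1.1) -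
    ((t.1.2.1 : ℚ) / t.1.1) ^ d

lemma eq_sign_div (x : ℚ) : ∃ s : Bool, x = (if s then (1 : ℚ) else -1) *
    ((x.num.natAbs : ℚ) / x.den) := by
  rw [← abs_eq_div]
  rcases le_total 0 x with h | h
  · exact ⟨true, by rw [abs_of_nonneg h]; simp⟩
  · exact ⟨false, by rw [abs_of_nonpos h]; simp⟩

section

variable {d : ℕ} (hd : Even d) (hd4 : 4 ≤ d)
include hd hd4

lemma pow_eq_div (x : ℚ) : x ^ d = ((x.num.natAbs : ℚ) / x.den) ^ d := by
  rw [← abs_eq_div, hd.pow_abs]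

/-- the size of numerator and denominator of a preperiodic point -/
lemma num_le {X : ℝ} (hX : 1 ≤ X) {c x : ℚ} (hx : x ∈ Pre d c)
    (hn : ((|c.num| : ℤ) : ℝ) ≤ X) (hc : (c.den : ℝ) ≤ X) :
    (x.num.natAbs : ℝ) ≤ 2 * X ^ (1 / (d : ℝ)) ∧ (x.den : ℝ) ≤ X ^ (1 / (d : ℝ)) := by
  obtain ⟨h1, h2⟩ := num_pow_le hd4 hx hn hc
  have hd0 : (d : ℝ) ≠ 0 := by
    have : d ≠ 0 := by omega
    exact_mod_cast this
  have e : (X ^ (1 / (d : ℝ))) ^ d = X := by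
    rw [← rpow_natCast, ← rpow_mul (by linarith), one_div_mul_cancel hd0, rpow_one]
  have hY : 0 ≤ X ^ (1 / (d : ℝ)) := by positivity
  constructor
  · apply le_of_pow_le_pow_left₀ (n := d) (by omega) (by positivity)
    rw [mul_pow, e]
    exact h1
  · apply le_of_pow_le_pow_left₀ (n := d) (by omega) (by positivity)
    rw [e]
    exact h2

/-- the bad parameters come from pairs -/
lemma bad_subset {X : ℝ} (hX : 1 ≤ X) : Bad d X ⊆
    ((((Finset.Icc 1 ⌊X ^ (1 / (d : ℝ))⌋₊).sigma fun b =>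
      pairs d ⌊2 * X ^ (1 / (d : ℝ))⌋₊ b) ×ˢ (Finset.univ : Finset (Bool × Bool))).image
      fun t => par d ((t.1.1, t.1.2), t.2) : Set ℚ) := by
  classical
  rintro c ⟨⟨h1, h2, h3⟩, h4⟩
  obtain ⟨x, hx, y, hy, hne, hc⟩ := bad_pair hd hd4 h3 h4
  obtain ⟨x1, x2⟩ := num_le hd hd4 hX hx h1 h2
  obtain ⟨y1, -⟩ := num_le hd hd4 hX hy h1 h2
  have hden := den_eq (by omega) hy hx
  have hp : x.num.natAbs ∈ Finset.range (⌊2 * X ^ (1 / (d : ℝ))⌋₊ + 1) := by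
    rw [Finset.mem_range, Nat.lt_succ_iff]
    exact Nat.le_floor x1
  have hq : y.num.natAbs ∈ Finset.range (⌊2 * X ^ (1 / (d : ℝ))⌋₊ + 1) := by
    rw [Finset.mem_range, Nat.lt_succ_iff]
    exact Nat.le_floor y1
  have hmem : (⟨x.den, (x.num.natAbs, y.num.natAbs)⟩ : Σ _ : ℕ, ℕ × ℕ) ∈
      (Finset.Icc 1 ⌊X ^ (1 / (d : ℝ))⌋₊).sigma fun b => pairs d ⌊2 * X ^ (1 / (d : ℝ))⌋₊ b := by
    rw [Finset.mem_sigma]
    refine ⟨Finset.mem_Icc.2 ⟨x.den_pos, Nat.le_floor x2⟩, ?_⟩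
    unfold pairs
    rw [Finset.mem_filter, Finset.mem_product]
    exact ⟨⟨hp, hq⟩, pair_of hd hd4 hx hy hne⟩
  rw [Finset.mem_coe, Finset.mem_image]
  rcases hc with hc | hc
  · obtain ⟨s, hs⟩ := eq_sign_div y
    refine ⟨(⟨x.den, (x.num.natAbs, y.num.natAbs)⟩, (s, false)),
      Finset.mem_product.2 ⟨hmem, Finset.mem_univ _⟩, ?_⟩
    rw [hden] at hs
    rw [hc]
    conv_rhs => rw [hs, pow_eq_div hd hd4 x]
    simp [par]
  · obtain ⟨s, hs⟩ := eq_sign_div x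
    refine ⟨(⟨x.den, (x.num.natAbs, y.num.natAbs)⟩, (s, true)),
      Finset.mem_product.2 ⟨hmem, Finset.mem_univ _⟩, ?_⟩
    have e1 := pow_eq_div hd hd4 x
    show (if s then (1 : ℚ) else -1) * ((if true then (x.num.natAbs : ℚ) else
      (y.num.natAbs : ℚ)) / x.den) - ((x.num.natAbs : ℚ) / x.den) ^ d = c
    rw [if_pos rfl, ← e1, ← hs, hc]

/-- the number of pairs for one denominator -/
lemma card_pairs_le {X : ℝ} (hX : 1 ≤ X) {ε C : ℝ} (hε : 0 < ε) (hC : 1 ≤ C)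
    (hω : ∀ b : ℕ, 1 ≤ b → ((d ^ b.primeFactors.card : ℕ) : ℝ) ≤ C * (b : ℝ) ^ ε) {b : ℕ}
    (hb1 : 1 ≤ b) (hb : (b : ℝ) ≤ X ^ (1 / (d : ℝ))) :
    ((pairs d ⌊2 * X ^ (1 / (d : ℝ))⌋₊ b).card : ℝ) ≤
      (if b ≤ 25 * d then ((5 * (25 * d) ^ (d - 1) + 1 : ℕ) : ℝ) ^ 2 else 0) +
      4 * C * (X ^ (1 / (d : ℝ))) ^ (1 + 1 / (d : ℝ) + ε) * (1 / b) := by
  classical
  set Y := X ^ (1 / (d : ℝ)) with hY
  have hY1 : 1 ≤ Y := one_le_rpow hX (by positivity)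
  have hb0 : (0 : ℝ) < b := by exact_mod_cast hb1
  have hd0 : (0 : ℝ) < d := by
    have : 0 < d := by omega
    exact_mod_cast this
  split_ifs with h
  · have h1 : (pairs d ⌊2 * Y⌋₊ b) ⊆ Finset.range (5 * (25 * d) ^ (d - 1) + 1) ×ˢ
        Finset.range (5 * (25 * d) ^ (d - 1) + 1) := by
      intro x hx
      obtain ⟨-, h2, h3⟩ := Finset.mem_filter.1 hx
      obtain ⟨h4, h5⟩ := entry_le hd4 hb1 h h2.ne h3
      rw [Finset.mem_product, Finset.mem_range, Finset.mem_range]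
      omega
    have h2 := Finset.card_le_card h1
    rw [Finset.card_product, Finset.card_range] at h2
    have h3 : ((pairs d ⌊2 * Y⌋₊ b).card : ℝ) ≤ ((5 * (25 * d) ^ (d - 1) + 1 : ℕ) : ℝ) ^ 2 := by
      rw [sq]
      exact_mod_cast h2
    have h4 : 0 ≤ 4 * C * Y ^ (1 + 1 / (d : ℝ) + ε) * (1 / b) := by positivity
    linarith
  · push Not at h
    rw [zero_add]
    have h1 := card_pairs hd hd4 h (pairs d ⌊2 * Y⌋₊ b) (fun x hx =>
      (Finset.mem_filter.1 hx).2) ⌊2 * Y ^ (1 + 1 / (d : ℝ)) / b⌋₊ (by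
      intro g x hx hg
      apply Nat.le_floor
      rw [le_div_iff₀ hb0]
      have h2 : (max x.1 x.2 : ℕ) ≤ ⌊2 * Y⌋₊ := by
        have := (Finset.mem_filter.1 hx).1
        rw [Finset.mem_product, Finset.mem_range, Finset.mem_range] at this
        omega
      have h3 : ((max x.1 x.2 : ℕ) : ℝ) ≤ 2 * Y :=
        (Nat.cast_le.2 h2).trans (Nat.floor_le (by positivity))
      have h4 : ((g : ℝ) * b) ^ d ≤ (2 * Y ^ (1 + 1 / (d : ℝ))) ^ d := by
        have h5 : ((g ^ d * b ^ (d - 1) : ℕ) : ℝ) ≤ (((max x.1 x.2) ^ d : ℕ) : ℝ) :=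
          Nat.cast_le.2 hg
        rw [Nat.cast_mul, Nat.cast_pow, Nat.cast_pow, Nat.cast_pow] at h5
        have h6 : (b : ℝ) ^ d = (b : ℝ) ^ (d - 1) * b := by
          rw [← pow_succ]
          congr 1
          omega
        have h7 : (Y ^ (1 + 1 / (d : ℝ))) ^ d = Y ^ d * Y := by
          rw [← rpow_natCast (Y ^ (1 + 1 / (d : ℝ))) d, ← rpow_mul (by linarith), add_mul, one_mul,
            one_div_mul_cancel hd0.ne', rpow_add (by linarith), rpow_one, rpow_natCast]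
        calc ((g : ℝ) * b) ^ d = ((g : ℝ) ^ d * (b : ℝ) ^ (d - 1)) * b := by
              rw [mul_pow, h6]
              ring
          _ ≤ ((max x.1 x.2 : ℕ) : ℝ) ^ d * b := by gcongr
          _ ≤ (2 * Y) ^ d * Y := by gcongr
          _ = (2 * Y ^ (1 + 1 / (d : ℝ))) ^ d := by
              rw [mul_pow, mul_pow, h7]
              ring
      exact le_of_pow_le_pow_left₀ (by omega) (by positivity) h4)
    have h2 : ((pairs d ⌊2 * Y⌋₊ b).card : ℝ) ≤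
        2 * ((2 * Y ^ (1 + 1 / (d : ℝ)) / b) * (C * (b : ℝ) ^ ε)) := by
      calc ((pairs d ⌊2 * Y⌋₊ b).card : ℝ) ≤
          ((2 * (⌊2 * Y ^ (1 + 1 / (d : ℝ)) / b⌋₊ * d ^ b.primeFactors.card) : ℕ) : ℝ) :=
            Nat.cast_le.2 h1
        _ = 2 * ((⌊2 * Y ^ (1 + 1 / (d : ℝ)) / b⌋₊ : ℝ) *
            ((d ^ b.primeFactors.card : ℕ) : ℝ)) := by
              rw [Nat.cast_mul, Nat.cast_mul]
              norm_num
        _ ≤ _ := by
          apply mul_le_mul_of_nonneg_left _ (by norm_num)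
          apply mul_le_mul (Nat.floor_le (by positivity)) (hω b hb1) (Nat.cast_nonneg _)
            (by positivity)
    refine h2.trans ?_
    have h3 : (b : ℝ) ^ ε ≤ Y ^ ε := rpow_le_rpow hb0.le hb hε.le
    have h4 : Y ^ (1 + 1 / (d : ℝ) + ε) = Y ^ (1 + 1 / (d : ℝ)) * Y ^ ε :=
      rpow_add (by linarith) _ _
    rw [h4]
    calc 2 * ((2 * Y ^ (1 + 1 / (d : ℝ)) / b) * (C * (b : ℝ) ^ ε)) ≤
        2 * ((2 * Y ^ (1 + 1 / (d : ℝ)) / b) * (C * Y ^ ε)) := by gcongr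
      _ = 4 * C * (Y ^ (1 + 1 / (d : ℝ)) * Y ^ ε) * (1 / b) := by ring

/-- the number of the bad parameters -/
theorem bad_card (ε : ℝ) (hε : 0 < ε) : ∃ K : ℝ, 1 ≤ K ∧ ∀ X : ℝ, 1 ≤ X → (Bad d X).Finite ∧
    ((Bad d X).ncard : ℝ) ≤ K * (X ^ (1 / (d : ℝ))) ^ (1 + 1 / (d : ℝ) + ε) := by
  classical
  obtain ⟨C, hC, hω⟩ := omega_bound d (by omega) (ε / 2) (by positivity)
  set A : ℝ := (25 * d : ℕ) * ((5 * (25 * d) ^ (d - 1) + 1 : ℕ) : ℝ) ^ 2 with hA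
  have hA0 : 0 ≤ A := by positivity
  have hd0 : (0 : ℝ) < d := by
    have : 0 < d := by omega
    exact_mod_cast this
  refine ⟨4 * (A + 4 * C * (1 + 2 / ε)) + 1, by
    have : 0 ≤ 4 * C * (1 + 2 / ε) := by positivity
    linarith, fun X hX => ?_⟩
  set Y := X ^ (1 / (d : ℝ)) with hY
  have hY1 : 1 ≤ Y := one_le_rpow hX (by positivity)
  have hsub := bad_subset hd hd4 hX
  rw [← hY] at hsub
  refine ⟨(Finset.finite_toSet _).subset hsub, ?_⟩
  have h1 := Set.ncard_le_ncard hsub (Finset.finite_toSet _)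
  rw [Set.ncard_coe_finset] at h1
  have h2 : (((((Finset.Icc 1 ⌊Y⌋₊).sigma fun b => pairs d ⌊2 * Y⌋₊ b) ×ˢ
      (Finset.univ : Finset (Bool × Bool))).image
      fun t => par d ((t.1.1, t.1.2), t.2)).card : ℝ) ≤
      4 * ∑ b ∈ Finset.Icc 1 ⌊Y⌋₊, ((pairs d ⌊2 * Y⌋₊ b).card : ℝ) := by
    have h3 := Finset.card_image_le (s := ((Finset.Icc 1 ⌊Y⌋₊).sigma fun b =>
      pairs d ⌊2 * Y⌋₊ b) ×ˢ (Finset.univ : Finset (Bool × Bool)))
      (f := fun t => par d ((t.1.1, t.1.2), t.2))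
    rw [Finset.card_product, Finset.card_sigma] at h3
    have h4 : (Finset.univ : Finset (Bool × Bool)).card = 4 := by simp
    rw [h4] at h3
    calc _ ≤ (((∑ b ∈ Finset.Icc 1 ⌊Y⌋₊, (pairs d ⌊2 * Y⌋₊ b).card) * 4 : ℕ) : ℝ) :=
          Nat.cast_le.2 h3
      _ = _ := by
        push_cast
        ring
  have h5 : ∑ b ∈ Finset.Icc 1 ⌊Y⌋₊, ((pairs d ⌊2 * Y⌋₊ b).card : ℝ) ≤
      A + 4 * C * Y ^ (1 + 1 / (d : ℝ) + ε / 2) * (1 + log Y) := by
    calc ∑ b ∈ Finset.Icc 1 ⌊Y⌋₊, ((pairs d ⌊2 * Y⌋₊ b).card : ℝ) ≤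
        ∑ b ∈ Finset.Icc 1 ⌊Y⌋₊,
          ((if b ≤ 25 * d then ((5 * (25 * d) ^ (d - 1) + 1 : ℕ) : ℝ) ^ 2 else 0) +
          4 * C * Y ^ (1 + 1 / (d : ℝ) + ε / 2) * (1 / b)) := by
          apply Finset.sum_le_sum
          intro b hb
          obtain ⟨hb1, hb2⟩ := Finset.mem_Icc.1 hb
          exact card_pairs_le hd hd4 hX (by positivity) hC hω hb1
            ((Nat.cast_le.2 hb2).trans (Nat.floor_le (by positivity)))
      _ = (∑ b ∈ Finset.Icc 1 ⌊Y⌋₊,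
          (if b ≤ 25 * d then ((5 * (25 * d) ^ (d - 1) + 1 : ℕ) : ℝ) ^ 2 else 0)) +
          4 * C * Y ^ (1 + 1 / (d : ℝ) + ε / 2) * ∑ b ∈ Finset.Icc 1 ⌊Y⌋₊, (1 : ℝ) / b := by
          rw [Finset.sum_add_distrib, Finset.mul_sum]
      _ ≤ _ := by
          apply add_le_add
          · rw [← Finset.sum_filter, Finset.sum_const, nsmul_eq_mul, hA]
            apply mul_le_mul_of_nonneg_right _ (by positivity)
            have h6 : (Finset.Icc 1 ⌊Y⌋₊).filter (fun b => b ≤ 25 * d) ⊆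
                Finset.Icc 1 (25 * d) := by
              intro b hb
              obtain ⟨h7, h8⟩ := Finset.mem_filter.1 hb
              exact Finset.mem_Icc.2 ⟨(Finset.mem_Icc.1 h7).1, h8⟩
            have h7 := Finset.card_le_card h6
            rw [Nat.card_Icc, Nat.add_sub_cancel] at h7
            exact Nat.cast_le.2 h7
          · apply mul_le_mul_of_nonneg_left _ (by positivity)
            refine (sum_inv _).trans ?_
            have hB1 : 1 ≤ ⌊Y⌋₊ := Nat.le_floor (by simpa using hY1)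
            have : log (⌊Y⌋₊ : ℝ) ≤ log Y := log_le_log (by exact_mod_cast hB1)
              (Nat.floor_le (by positivity))
            linarith
  have h6 : 1 + log Y ≤ (1 + 2 / ε) * Y ^ (ε / 2) := by
    have h7 := log_le_rpow_div (x := Y) (by linarith) (ε := ε / 2) (by positivity)
    have h8 : 1 ≤ Y ^ (ε / 2) := one_le_rpow hY1 (by positivity)
    have h9 : Y ^ (ε / 2) / (ε / 2) = 2 / ε * Y ^ (ε / 2) := by
      field_simp
    rw [h9] at h7
    linarith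
  have h7 : Y ^ (1 + 1 / (d : ℝ) + ε) = Y ^ (1 + 1 / (d : ℝ) + ε / 2) * Y ^ (ε / 2) := by
    rw [← rpow_add (by linarith)]
    congr 1
    ring
  have h8 : 1 ≤ Y ^ (1 + 1 / (d : ℝ) + ε) := one_le_rpow hY1 (by positivity)
  have h9 : 4 * C * Y ^ (1 + 1 / (d : ℝ) + ε / 2) * (1 + log Y) ≤
      4 * C * (1 + 2 / ε) * Y ^ (1 + 1 / (d : ℝ) + ε) := by
    rw [h7]
    calc 4 * C * Y ^ (1 + 1 / (d : ℝ) + ε / 2) * (1 + log Y) ≤
        4 * C * Y ^ (1 + 1 / (d : ℝ) + ε / 2) * ((1 + 2 / ε) * Y ^ (ε / 2)) := by gcongr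
      _ = _ := by ring
  calc ((Bad d X).ncard : ℝ) ≤ _ := Nat.cast_le.2 h1
    _ ≤ _ := h2
    _ ≤ 4 * (A + 4 * C * (1 + 2 / ε) * Y ^ (1 + 1 / (d : ℝ) + ε)) := by linarith
    _ ≤ (4 * (A + 4 * C * (1 + 2 / ε)) + 1) * Y ^ (1 + 1 / (d : ℝ) + ε) := by
        have : A ≤ A * Y ^ (1 + 1 / (d : ℝ) + ε) := by nlinarith
        nlinarith

end

end Pool.Agent.Q15.UM
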