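import Pool.Agent.Q15.UM.U6

/-! The number of the parameters with rational preperiodic points, and the moments. -/

set_option autoImplicit false

namespace Pool.Agent.Q15.UM

open Real

/-- fixed points are preperiodic -/
lemma fixed_pre {d : ℕ} {c x : ℚ} (h : fc d c x = x) : x ∈ Pre d c := by
  refine Set.Finite.subset (Set.finite_singleton x) ?_
  rintro _ ⟨k, rfl⟩
  rw [Set.mem_singleton_iff]
  exact Function.iterate_fixed h k

section

variable {d : ℕ} (hd : Even d) (hd4 : 4 ≤ d)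
include hd hd4

/-- the upper bound for the number of all parameters -/
theorem par_upper : ∃ K : ℝ, 1 ≤ K ∧ ∀ X : ℝ, 1 ≤ X → (Par d X).Finite ∧
    ((Par d X).ncard : ℝ) ≤ K * (X ^ (1 / (d : ℝ))) ^ (2 : ℝ) := by
  classical
  obtain ⟨K, hK, hbad⟩ := bad_card hd hd4 (1 / 2) (by norm_num)
  have hd0 : (4 : ℝ) ≤ d := by exact_mod_cast hd4
  refine ⟨K + 6, by linarith, fun X hX => ?_⟩
  set Y := X ^ (1 / (d : ℝ)) with hY
  have hY1 : 1 ≤ Y := one_le_rpow hX (by positivity)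
  obtain ⟨hbf, hbc⟩ := hbad X hX
  rw [← hY] at hbc
  set G : Finset ℚ := ((Finset.Icc 1 ⌊Y⌋₊ ×ˢ Finset.range (⌊2 * Y⌋₊ + 1)) ×ˢ
    (Finset.univ : Finset Bool)).image fun t => par d ((t.1.1, (t.1.2, 0)), (t.2, true)) with hG
  have hsub : Par d X ⊆ Bad d X ∪ (G : Set ℚ) := by
    intro c hc
    by_cases h2 : (Pre d c).ncard = 2
    · right
      obtain ⟨x, -, hfx, hPx⟩ := good_fixed hd hd4 h2
      have hx : x ∈ Pre d c := fixed_pre hfx
      obtain ⟨h1, h3, -⟩ := hc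
      obtain ⟨x1, x2⟩ := num_le hd hd4 hX hx h1 h3
      rw [Finset.mem_coe, hG, Finset.mem_image]
      obtain ⟨s, hs⟩ := eq_sign_div x
      refine ⟨((x.den, x.num.natAbs), s), ?_, ?_⟩
      · rw [Finset.mem_product, Finset.mem_product, Finset.mem_Icc, Finset.mem_range]
        exact ⟨⟨⟨x.den_pos, Nat.le_floor x2⟩, Nat.lt_succ_of_le (Nat.le_floor x1)⟩,
          Finset.mem_univ _⟩
      · have e1 := pow_eq_div hd hd4 x
        show (if s then (1 : ℚ) else -1) * ((if true then (x.num.natAbs : ℚ) else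
          ((0 : ℕ) : ℚ)) / x.den) - ((x.num.natAbs : ℚ) / x.den) ^ d = c
        rw [if_pos rfl, ← e1, ← hs]
        unfold fc at hfx
        linarith
    · exact Or.inl ⟨hc, h2⟩
  have hGc : (G.card : ℝ) ≤ 6 * Y ^ (2 : ℝ) := by
    have h1 := Finset.card_image_le (s := (Finset.Icc 1 ⌊Y⌋₊ ×ˢ Finset.range (⌊2 * Y⌋₊ + 1)) ×ˢ
      (Finset.univ : Finset Bool)) (f := fun t => par d ((t.1.1, (t.1.2, 0)), (t.2, true)))
    rw [Finset.card_product, Finset.card_product, Nat.card_Icc, Finset.card_range,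
      Nat.add_sub_cancel] at h1
    have h2 : (Finset.univ : Finset Bool).card = 2 := by simp
    rw [h2] at h1
    have h3 : (⌊Y⌋₊ : ℝ) ≤ Y := Nat.floor_le (by positivity)
    have h4 : (⌊2 * Y⌋₊ : ℝ) ≤ 2 * Y := Nat.floor_le (by positivity)
    have h5 : Y ^ (2 : ℝ) = Y * Y := by
      rw [rpow_two, sq]
    rw [h5]
    calc (G.card : ℝ) ≤ ((⌊Y⌋₊ * (⌊2 * Y⌋₊ + 1) * 2 : ℕ) : ℝ) := Nat.cast_le.2 h1
      _ = (⌊Y⌋₊ : ℝ) * ((⌊2 * Y⌋₊ : ℝ) + 1) * 2 := by push_cast; ring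
      _ ≤ Y * (2 * Y + 1) * 2 := by gcongr
      _ ≤ 6 * (Y * Y) := by nlinarith
  have hfin : (Bad d X ∪ (G : Set ℚ)).Finite := hbf.union (Finset.finite_toSet _)
  refine ⟨hfin.subset hsub, ?_⟩
  have h1 : (Par d X).ncard ≤ (Bad d X).ncard + G.card := by
    refine (Set.ncard_le_ncard hsub hfin).trans ?_
    refine (Set.ncard_union_le _ _).trans ?_
    rw [Set.ncard_coe_finset]
  have h2 : Y ^ (1 + 1 / (d : ℝ) + 1 / 2) ≤ Y ^ (2 : ℝ) := by
    apply rpow_le_rpow_of_exponent_le hY1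
    have : 1 / (d : ℝ) ≤ 1 / 4 := one_div_le_one_div_of_le (by norm_num) hd0
    linarith
  calc ((Par d X).ncard : ℝ) ≤ ((Bad d X).ncard : ℝ) + G.card := by exact_mod_cast h1
    _ ≤ K * Y ^ (2 : ℝ) + 6 * Y ^ (2 : ℝ) := by
        apply add_le_add (hbc.trans _) hGc
        apply mul_le_mul_of_nonneg_left h2 (by linarith)
    _ = (K + 6) * Y ^ (2 : ℝ) := by ring

omit hd in
lemma inj_aux {b u b' u' : ℕ} (hb : 1 ≤ b) (hu : 1 ≤ u) (hb' : 1 ≤ b') (hu' : 1 ≤ u')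
    (hc : Nat.Coprime b u) (hc' : Nat.Coprime b' u')
    (h : -((u : ℚ) / b) - ((u : ℚ) / b) ^ d = -((u' : ℚ) / b') - ((u' : ℚ) / b') ^ d) :
    b = b' ∧ u = u' := by
  have hb0 : (0 : ℚ) < b := by exact_mod_cast hb
  have hb0' : (0 : ℚ) < b' := by exact_mod_cast hb'
  have h1 : (u : ℚ) / b = (u' : ℚ) / b' := by
    have h2 : StrictMonoOn (fun t : ℚ => t + t ^ d) (Set.Ici 0) := by
      intro s hs t ht hst
      have : s ^ d < t ^ d := pow_lt_pow_left₀ hst hs (by omega)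
      simp only
      linarith
    apply h2.injOn (Set.mem_Ici.2 (by positivity)) (Set.mem_Ici.2 (by positivity))
    simp only
    linarith
  rw [div_eq_div_iff hb0.ne' hb0'.ne'] at h1
  have h2 : u * b' = u' * b := by exact_mod_cast h1
  have h3 : b = b' := by
    apply Nat.dvd_antisymm
    · exact Nat.Coprime.dvd_of_dvd_mul_left hc (by rw [h2]; exact Dvd.intro_left _ rfl)
    · exact Nat.Coprime.dvd_of_dvd_mul_left hc' (by rw [← h2]; exact Dvd.intro_left _ rfl)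
  refine ⟨h3, ?_⟩
  rw [h3] at h2
  exact Nat.eq_of_mul_eq_mul_right (by omega) h2

/-- the lower bound for the number of all parameters -/
theorem par_lower {X : ℝ} (hX : 1 ≤ X) :
    (X ^ (1 / (d : ℝ))) ^ (2 : ℝ) ≤ 64 * ((Par d X).ncard : ℝ) := by
  classical
  obtain ⟨K, -, hK⟩ := par_upper hd hd4
  have hfin := (hK X hX).1
  have hd0 : (4 : ℝ) ≤ d := by exact_mod_cast hd4
  have hdn : d ≠ 0 := by omega
  set Y := X ^ (1 / (d : ℝ)) with hY
  have hY1 : 1 ≤ Y := one_le_rpow hX (by positivity)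
  rw [rpow_two]
  rcases lt_or_ge X 2 with hX2 | hX2
  · have h0 : (0 : ℚ) ∈ Par d X := by
      refine ⟨by simpa using (by linarith : (0 : ℝ) ≤ X), by simpa using hX, 0, ?_⟩
      apply fixed_pre
      unfold fc
      rw [zero_pow hdn, add_zero]
    have h1 : 1 ≤ (Par d X).ncard := by
      rw [Nat.one_le_iff_ne_zero]
      exact (Set.ncard_pos hfin).2 ⟨0, h0⟩ |>.ne'
    have h2 : (1 : ℝ) ≤ (Par d X).ncard := by exact_mod_cast h1
    have h3 : Y ≤ X := by
      calc Y ≤ X ^ (1 : ℝ) := rpow_le_rpow_of_exponent_le hX (by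
            rw [div_le_one (by linarith)]
            linarith)
        _ = X := rpow_one X
    nlinarith
  · set Z := (X / 2) ^ (1 / (d : ℝ)) with hZ
    have hZ1 : 1 ≤ Z := one_le_rpow (by linarith) (by positivity)
    have hZd : Z ^ d = X / 2 := by
      rw [hZ, ← rpow_natCast, ← rpow_mul (by linarith),
        one_div_mul_cancel (by linarith : (d : ℝ) ≠ 0), rpow_one]
    have hYZ : Y ≤ 2 * Z := by
      have h1 : Y = 2 ^ (1 / (d : ℝ)) * Z := by
        rw [hY, hZ, ← mul_rpow (by norm_num) (by linarith)]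
        congr 1
        ring
      have h2 : (2 : ℝ) ^ (1 / (d : ℝ)) ≤ 2 := by
        calc (2 : ℝ) ^ (1 / (d : ℝ)) ≤ 2 ^ (1 : ℝ) := rpow_le_rpow_of_exponent_le (by norm_num) (by
              rw [div_le_one (by linarith)]
              linarith)
          _ = 2 := rpow_one 2
      rw [h1]
      nlinarith
    obtain ⟨n, hn⟩ : ∃ n, n = ⌊Z⌋₊ := ⟨_, rfl⟩
    have hn1 : 1 ≤ n := by
      rw [hn]
      exact Nat.le_floor (by simpa using hZ1)
    have hnZ : (n : ℝ) ≤ Z := by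
      rw [hn]
      exact Nat.floor_le (by linarith)
    have hZn : Z ≤ 2 * n := by
      have h1 : Z < n + 1 := by
        rw [hn]
        exact Nat.lt_floor_add_one Z
      have h2 : (1 : ℝ) ≤ n := by exact_mod_cast hn1
      linarith
    have hnd : 2 * (n : ℝ) ^ d ≤ X := by
      have h1 : (n : ℝ) ^ d ≤ Z ^ d := by gcongr
      rw [hZd] at h1
      linarith
    -- the family of parameters
    have hinj : Set.InjOn (fun x : ℕ × ℕ => -((x.2 : ℚ) / x.1) - ((x.2 : ℚ) / x.1) ^ d)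
        (cop n : Set (ℕ × ℕ)) := by
      intro x hx y hy hxy
      have hx' := Finset.mem_coe.1 hx
      have hy' := Finset.mem_coe.1 hy
      unfold cop at hx' hy'
      rw [Finset.mem_filter, Finset.mem_product, Finset.mem_Icc, Finset.mem_Icc] at hx' hy'
      obtain ⟨h1, h2⟩ := inj_aux hd4 hx'.1.1.1 hx'.1.2.1 hy'.1.1.1 hy'.1.2.1 hx'.2 hy'.2 hxy
      exact Prod.ext h1 h2
    have hsub : ((cop n).image fun x : ℕ × ℕ => -((x.2 : ℚ) / x.1) - ((x.2 : ℚ) / x.1) ^ d :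
        Set ℚ) ⊆ Par d X := by
      intro c hc
      obtain ⟨x, hx, rfl⟩ := Finset.mem_image.1 (Finset.mem_coe.1 hc)
      unfold cop at hx
      rw [Finset.mem_filter, Finset.mem_product, Finset.mem_Icc, Finset.mem_Icc] at hx
      obtain ⟨⟨⟨a1, a2⟩, ⟨a3, a4⟩⟩, -⟩ := hx
      have hb0 : (0 : ℚ) < x.1 := by exact_mod_cast a1
      have hbz : ((x.1 : ℤ) ^ d) ≠ 0 := pow_ne_zero _ (by
        have : (0 : ℤ) < x.1 := by exact_mod_cast a1
        exact this.ne')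
      have e : -((x.2 : ℚ) / x.1) - ((x.2 : ℚ) / x.1) ^ d =
          Rat.divInt (-((x.2 : ℤ) * (x.1 : ℤ) ^ (d - 1) + (x.2 : ℤ) ^ d)) ((x.1 : ℤ) ^ d) := by
        rw [Rat.divInt_eq_div]
        push_cast
        have h6 : (x.1 : ℚ) ^ d = (x.1 : ℚ) ^ (d - 1) * x.1 := by
          rw [← pow_succ]
          congr 1
          omega
        rw [div_pow, h6]
        field_simp
        ring
      have hx1 : (x.1 : ℝ) ≤ n := by exact_mod_cast a2
      have hx2 : (x.2 : ℝ) ≤ n := by exact_mod_cast a4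
      refine ⟨?_, ?_, -((x.2 : ℚ) / x.1), ?_⟩
      · rw [e]
        have h1 := Rat.num_dvd (-((x.2 : ℤ) * (x.1 : ℤ) ^ (d - 1) + (x.2 : ℤ) ^ d)) hbz
        have hpos : 0 < (x.2 : ℤ) * (x.1 : ℤ) ^ (d - 1) + (x.2 : ℤ) ^ d := by
          have : (0 : ℤ) < x.1 := by exact_mod_cast a1
          have : (0 : ℤ) < x.2 := by exact_mod_cast a3
          positivity
        have h2 := Int.le_of_dvd (by rw [abs_neg]; exact abs_pos.2 hpos.ne')
          ((abs_dvd_abs _ _).2 h1)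
        rw [abs_neg, abs_of_pos hpos] at h2
        have h3 : ((|(Rat.divInt (-((x.2 : ℤ) * (x.1 : ℤ) ^ (d - 1) + (x.2 : ℤ) ^ d))
            ((x.1 : ℤ) ^ d)).num| : ℤ) : ℝ) ≤ (x.2 : ℝ) * (x.1 : ℝ) ^ (d - 1) + (x.2 : ℝ) ^ d := by
          exact_mod_cast h2
        refine h3.trans ?_
        have h4 : (n : ℝ) ^ d = n * (n : ℝ) ^ (d - 1) := by
          rw [← pow_succ']
          congr 1
          omega
        calc (x.2 : ℝ) * (x.1 : ℝ) ^ (d - 1) + (x.2 : ℝ) ^ d ≤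
            n * (n : ℝ) ^ (d - 1) + (n : ℝ) ^ d := by gcongr
          _ = 2 * (n : ℝ) ^ d := by rw [← h4]; ring
          _ ≤ X := hnd
      · rw [e]
        have h1 := Rat.den_dvd (-((x.2 : ℤ) * (x.1 : ℤ) ^ (d - 1) + (x.2 : ℤ) ^ d))
          ((x.1 : ℤ) ^ d)
        have h2 := Int.le_of_dvd (by
          have : (0 : ℤ) < x.1 := by exact_mod_cast a1
          positivity) h1
        have h3 : ((Rat.divInt (-((x.2 : ℤ) * (x.1 : ℤ) ^ (d - 1) + (x.2 : ℤ) ^ d))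
            ((x.1 : ℤ) ^ d)).den : ℝ) ≤ (x.1 : ℝ) ^ d := by
          exact_mod_cast h2
        refine h3.trans ?_
        have h4 : (x.1 : ℝ) ^ d ≤ (n : ℝ) ^ d := by gcongr
        have h5 : 0 ≤ (n : ℝ) ^ d := by positivity
        linarith
      · apply fixed_pre
        unfold fc
        rw [hd.neg_pow]
        ring
    have h1 := Set.ncard_le_ncard hsub hfin
    rw [Set.ncard_coe_finset, Finset.card_image_of_injOn hinj] at h1
    have h2 := cop_ge n hn1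
    have h3 : ((cop n).card : ℝ) ≤ (Par d X).ncard := by exact_mod_cast h1
    have h4 : Y ≤ 4 * n := by linarith
    have h5 : Y ^ 2 ≤ (4 * (n : ℝ)) ^ 2 := by gcongr
    nlinarith

/-- the moments over the bad parameters -/
theorem moments (p : ℕ) (ε : ℝ) (hε : 0 < ε) : ∃ K : ℝ, 1 ≤ K ∧ ∀ X : ℝ, 1 ≤ X →
    (Bad d X).Finite ∧ ∑ᶠ c ∈ Bad d X, (((Pre d c).ncard : ℝ)) ^ p ≤
      K * (X ^ (1 / (d : ℝ))) ^ (1 + 1 / (d : ℝ) + ε) := by
  classical
  obtain ⟨K, hK, hbad⟩ := bad_card hd hd4 (ε / 2) (by positivity)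
  obtain ⟨C, hC, hω⟩ := omega_bound d (by omega) (ε / (2 * (p + 1))) (by positivity)
  have hK1 : (1 : ℝ) ≤ K1 d := by
    have : 1 ≤ K1 d := by unfold K1; omega
    exact_mod_cast this
  refine ⟨K * (K1 d * C) ^ p, ?_, fun X hX => ?_⟩
  · have : 1 ≤ ((K1 d : ℝ) * C) ^ p := one_le_pow₀ (by nlinarith)
    nlinarith
  set Y := X ^ (1 / (d : ℝ)) with hY
  have hY1 : 1 ≤ Y := one_le_rpow hX (by positivity)
  obtain ⟨hbf, hbc⟩ := hbad X hX
  rw [← hY] at hbc
  refine ⟨hbf, ?_⟩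
  rw [finsum_mem_eq_finite_toFinset_sum _ hbf]
  have h1 : ∀ c ∈ hbf.toFinset, ((Pre d c).ncard : ℝ) ^ p ≤
      (K1 d * C) ^ p * Y ^ (ε / 2) := by
    intro c hc
    obtain ⟨⟨h1, h2, x, hx⟩, -⟩ := (Set.Finite.mem_toFinset hbf).1 hc
    obtain ⟨-, x2⟩ := num_le hd hd4 hX hx h1 h2
    have h3 : ((Pre d c).ncard : ℝ) ≤ K1 d * C * Y ^ (ε / (2 * (p + 1))) := by
      calc ((Pre d c).ncard : ℝ) ≤ ((K1 d * d ^ x.den.primeFactors.card : ℕ) : ℝ) :=
            Nat.cast_le.2 (ncard_pre hd hd4 hx)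
        _ = (K1 d : ℝ) * ((d ^ x.den.primeFactors.card : ℕ) : ℝ) := by rw [Nat.cast_mul]
        _ ≤ K1 d * (C * (x.den : ℝ) ^ (ε / (2 * (p + 1)))) := by
            apply mul_le_mul_of_nonneg_left (hω _ x.den_pos) (by linarith)
        _ ≤ K1 d * (C * Y ^ (ε / (2 * (p + 1)))) := by
            gcongr
        _ = _ := by ring
    calc ((Pre d c).ncard : ℝ) ^ p ≤ (K1 d * C * Y ^ (ε / (2 * (p + 1)))) ^ p := by gcongr
      _ = (K1 d * C) ^ p * (Y ^ (ε / (2 * (p + 1)))) ^ p := mul_pow _ _ _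
      _ ≤ (K1 d * C) ^ p * Y ^ (ε / 2) := by
          apply mul_le_mul_of_nonneg_left _ (by positivity)
          rw [← rpow_natCast, ← rpow_mul (by linarith)]
          apply rpow_le_rpow_of_exponent_le hY1
          rw [div_mul_eq_mul_div, div_le_div_iff₀ (by positivity) (by norm_num)]
          nlinarith
  calc ∑ c ∈ hbf.toFinset, ((Pre d c).ncard : ℝ) ^ p ≤
      ∑ _c ∈ hbf.toFinset, (K1 d * C) ^ p * Y ^ (ε / 2) := Finset.sum_le_sum h1
    _ = ((Bad d X).ncard : ℝ) * ((K1 d * C) ^ p * Y ^ (ε / 2)) := by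
        rw [Finset.sum_const, nsmul_eq_mul, Set.ncard_eq_toFinset_card _ hbf]
    _ ≤ (K * Y ^ (1 + 1 / (d : ℝ) + ε / 2)) * ((K1 d * C) ^ p * Y ^ (ε / 2)) := by
        apply mul_le_mul_of_nonneg_right hbc (by positivity)
    _ = K * (K1 d * C) ^ p * (Y ^ (1 + 1 / (d : ℝ) + ε / 2) * Y ^ (ε / 2)) := by ring
    _ = K * (K1 d * C) ^ p * Y ^ (1 + 1 / (d : ℝ) + ε) := by
        rw [← rpow_add (by linarith)]
        congr 2
        ring

end

end Pool.Agent.Q15.UM
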